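import Pool.Agent.Helper97.RE.Lib.Helper71_OpGraph
import Pool.Agent.Helper97.RE.Lib.Helper48_LowerDefs

/-!
# Piece B for S07133: the graphs `iter ks (star P)`

Copies, balancedness, Euclid.
-/

set_option autoImplicit false
set_option linter.unusedVariables false

namespace Pool.Agent.Helper97.RE
open Finset

/-- the star with `P + 1` leaves; the centre is `none` -/
def star (P : ℕ) : BG where
  V := Option (Fin (P + 1))
  G := SimpleGraph.fromRel (fun a b => a = none ∧ b ≠ none)
  c := fun a => a.isSome
  proper := by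
    intro a b h
    rw [SimpleGraph.fromRel_adj] at h
    obtain ⟨-, h | h⟩ := h
    · obtain ⟨rfl, hb⟩ := h
      cases b with
      | none => exact absurd rfl hb
      | some b => simp
    · obtain ⟨rfl, hb⟩ := h
      cases a with
      | none => exact absurd rfl hb
      | some a => simp
  conn := by
    have h0 : ∀ x : Option (Fin (P + 1)), (SimpleGraph.fromRel
        (fun a b : Option (Fin (P + 1)) => a = none ∧ b ≠ none)).Reachable none x := by
      intro x
      cases x with
      | none => exact SimpleGraph.Reachable.refl _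
      | some x =>
        apply SimpleGraph.Adj.reachable
        rw [SimpleGraph.fromRel_adj]
        exact ⟨by simp, Or.inl ⟨rfl, by simp⟩⟩
    have : Nonempty (Option (Fin (P + 1))) := ⟨none⟩
    exact ⟨fun a b => (h0 a).symm.trans (h0 b)⟩
  both := by
    intro t
    cases t with
    | false => exact ⟨none, rfl⟩
    | true => exact ⟨some 0, rfl⟩

/-- iterate the operations -/
noncomputable def iter : List ℕ → BG → BG
  | [], H => H
  | k :: ks, H => BG.op k (iter ks H)

/-- roots -/
def root (P : ℕ) : (ks : List ℕ) → (iter ks (star P)).V → Prop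
  | [] => fun x => x = (none : Option (Fin (P + 1)))
  | k :: ks => fun x => match (x : BG.opV k (iter ks (star P))) with
    | Sum.inl a => root P ks a
    | Sum.inr (Sum.inl y) => root P ks y.1.1.1 ∧ root P ks y.1.1.2
    | Sum.inr (Sum.inr _) => True

/-- the exponents: `ex(n, iter ks (star P)) = n^(1 + xs ks + o(1))` -/
noncomputable def xs : List ℕ → ℝ
  | [] => 0
  | k :: ks => 1 / ((k : ℝ) + 2 - xs ks)

/-! ### Euclid -/

theorem xs_mem (ks : List ℕ) : 0 ≤ xs ks ∧ xs ks < 1 := by
  induction ks with
  | nil => simp [xs]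
  | cons k ks ih =>
    have hk : (0 : ℝ) ≤ k := Nat.cast_nonneg k
    have h1 : (0 : ℝ) < (k : ℝ) + 2 - xs ks := by linarith [ih.2]
    constructor
    · exact (one_div_pos.2 h1).le
    · simp only [xs]
      rw [div_lt_one h1]
      linarith [ih.2]

/-- Euclid: every rational in `(0,1)` is some `xs ks` -/
theorem exists_xs (p q : ℕ) (hp : 0 < p) (hpq : p < q) :
    ∃ ks, ks ≠ [] ∧ xs ks = (p : ℝ) / q := by
  induction p using Nat.strong_induction_on generalizing q with
  | _ p ih =>
    -- write q = (k+2) p - p'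
    obtain ⟨k, r, hkr, hr⟩ : ∃ k r : ℕ, q + r = (k + 2) * p ∧ r < p := by
      have h1 : 1 ≤ (q - 1) / p := by
        rw [Nat.one_le_div_iff hp]; omega
      refine ⟨(q - 1) / p - 1, p - 1 - (q - 1) % p, ?_, ?_⟩
      · have h2 := Nat.div_add_mod (q - 1) p
        have h3 := Nat.mod_lt (q - 1) hp
        obtain ⟨m, hm⟩ : ∃ m, (q - 1) / p = m + 1 := ⟨(q - 1) / p - 1, by omega⟩
        rw [hm] at h2 ⊢
        have h4 : m + 1 - 1 + 2 = (m + 1) + 1 := by omega
        rw [h4, Nat.add_mul, Nat.mul_comm (m + 1) p, one_mul]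
        omega
      · omega
    have hpR : (0 : ℝ) < p := by exact_mod_cast hp
    have hqR : (0 : ℝ) < q := by exact_mod_cast (lt_trans hp hpq)
    have hE : (q : ℝ) + r = (k + 2) * p := by exact_mod_cast hkr
    rcases Nat.eq_zero_or_pos r with h0 | h0
    · refine ⟨[k], by simp, ?_⟩
      subst h0
      simp only [xs, sub_zero]
      rw [div_eq_div_iff (by positivity) hqR.ne']
      simp only [Nat.cast_zero, add_zero] at hE
      rw [hE]; ring
    · obtain ⟨ks, -, hks⟩ := ih r hr p h0 hr
      refine ⟨k :: ks, by simp, ?_⟩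
      simp only [xs]
      rw [hks]
      have h5 : (k : ℝ) + 2 - r / p = q / p := by
        field_simp
        linarith
      rw [h5, one_div_div]

/-! ### the star -/

theorem star_ex (P : ℕ) : ∃ C : ℝ, ∀ n : ℕ,
    (SimpleGraph.extremalNumber n (star P).G : ℝ) ≤ C * (n : ℝ) ^ (1 + (0 : ℝ)) := by
  refine ⟨P, fun n => ?_⟩
  rw [add_zero, Real.rpow_one]
  have h : SimpleGraph.extremalNumber (Fintype.card (Fin n)) (star P).G ≤ P * n := by
    rw [SimpleGraph.extremalNumber_le_iff]
    intro G _ hfree
    have hd : ∀ v, G.degree v ≤ P := by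
      intro v
      by_contra hv
      rw [not_le] at hv
      apply hfree
      obtain ⟨g⟩ : Nonempty (Fin (P + 1) ↪ G.neighborFinset v) := by
        apply Function.Embedding.nonempty_of_card_le
        rw [Fintype.card_fin, Fintype.card_coe, SimpleGraph.card_neighborFinset_eq_degree]
        exact hv
      have hg : ∀ i, G.Adj v (g i) := fun i => by
        have := (g i).2
        rwa [SimpleGraph.mem_neighborFinset] at this
      let f : Option (Fin (P + 1)) → Fin n := fun x => x.elim v (fun i => (g i : Fin n))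
      have hf : Function.Injective f := by
        intro a b hab
        cases a with
        | none =>
          cases b with
          | none => rfl
          | some j => exact absurd hab (hg j).ne
        | some i =>
          cases b with
          | none => exact absurd hab.symm (hg i).ne
          | some j =>
            have : (g i : Fin n) = g j := hab
            rw [g.injective (Subtype.ext this)]
      have hhom : ∀ a b : Option (Fin (P + 1)), (SimpleGraph.fromRel
          (fun a b : Option (Fin (P + 1)) => a = none ∧ b ≠ none)).Adj a b →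
          G.Adj (f a) (f b) := by
        intro a b hab'
        rw [SimpleGraph.fromRel_adj] at hab'
        obtain ⟨-, ⟨rfl, hb⟩ | ⟨rfl, hb⟩⟩ := hab'
        · cases b with
          | none => exact absurd rfl hb
          | some j => exact hg j
        · cases a with
          | none => exact absurd rfl hb
          | some j => exact (hg j).symm
      exact ⟨⟨⟨f, fun {a b} hab => hhom a b hab⟩, hf⟩⟩
    have hs := G.sum_degrees_eq_twice_card_edges
    have hs2 : ∑ v, G.degree v ≤ ∑ _v : Fin n, P := Finset.sum_le_sum fun v _ => hd v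
    rw [Finset.sum_const, Finset.card_univ, Fintype.card_fin, smul_eq_mul] at hs2
    rw [Nat.mul_comm P n]
    omega
  rw [Fintype.card_fin] at h
  exact_mod_cast h

/-! ### functoriality of `op` and copies -/

namespace BG

/-- map on edges induced by a colour preserving graph map -/
def mapE {H H' : BG} (f : H.V → H'.V) (hadj : ∀ x y, H.G.Adj x y → H'.G.Adj (f x) (f y))
    (hc : ∀ x, H'.c (f x) = H.c x) (e : H.E) : H'.E :=
  ⟨(f e.1.1, f e.1.2), hadj _ _ e.2.1, (hc _).trans e.2.2.1, (hc _).trans e.2.2.2⟩

/-- map on vertices of `op k H` induced by a colour preserving graph map -/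
def opMap (k : ℕ) {H H' : BG} (f : H.V → H'.V)
    (hadj : ∀ x y, H.G.Adj x y → H'.G.Adj (f x) (f y)) (hc : ∀ x, H'.c (f x) = H.c x) :
    opV k H → opV k H'
  | Sum.inl a => Sum.inl (f a)
  | Sum.inr (Sum.inl y) => Sum.inr (Sum.inl (mapE f hadj hc y.1, y.2))
  | Sum.inr (Sum.inr b) => Sum.inr (Sum.inr b)

theorem opMap_pt (k : ℕ) {H H' : BG} (f : H.V → H'.V)
    (hadj : ∀ x y, H.G.Adj x y → H'.G.Adj (f x) (f y)) (hc : ∀ x, H'.c (f x) = H.c x)
    (e : H.E) (i : ℕ) : opMap k f hadj hc (pt k e i) = pt k (mapE f hadj hc e) i := by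
  unfold pt
  by_cases h0 : i = 0
  · simp only [if_pos h0]
    rfl
  · by_cases h1 : i - 1 < k
    · simp only [if_neg h0, dif_pos h1]
      rfl
    · simp only [if_neg h0, dif_neg h1]
      rfl

theorem opMap_rel (k : ℕ) {H H' : BG} (f : H.V → H'.V)
    (hadj : ∀ x y, H.G.Adj x y → H'.G.Adj (f x) (f y)) (hc : ∀ x, H'.c (f x) = H.c x)
    (x y : opV k H) (h : opRel k H x y) :
    opRel k H' (opMap k f hadj hc x) (opMap k f hadj hc y) := by
  rcases h with ⟨e, i, hi, rfl, rfl⟩ | ⟨a, rfl, rfl⟩
  · exact Or.inl ⟨mapE f hadj hc e, i, hi, opMap_pt k f hadj hc e i,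
      opMap_pt k f hadj hc e (i + 1)⟩
  · refine Or.inr ⟨f a, ?_, rfl⟩
    rw [hc]
    rfl

theorem opMap_inj (k : ℕ) {H H' : BG} (f : H.V → H'.V)
    (hadj : ∀ x y, H.G.Adj x y → H'.G.Adj (f x) (f y)) (hc : ∀ x, H'.c (f x) = H.c x)
    (hf : Function.Injective f) : Function.Injective (opMap k f hadj hc) := by
  have hE : Function.Injective (mapE f hadj hc) := by
    intro e e' h
    have h1 : (f e.1.1, f e.1.2) = (f e'.1.1, f e'.1.2) := congrArg Subtype.val h
    rw [Prod.mk.injEq] at h1
    exact Subtype.ext (Prod.ext (hf h1.1) (hf h1.2))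
  intro x y h
  rcases x with a | ⟨e, i⟩ | b <;> rcases y with a' | ⟨e', i'⟩ | b'
  · have h1 : f a = f a' := Sum.inl_injective h
    rw [hf h1]
  · exact absurd h (by simp [opMap])
  · exact absurd h (by simp [opMap])
  · exact absurd h (by simp [opMap])
  · have h1 : (mapE f hadj hc e, i) = (mapE f hadj hc e', i') :=
      Sum.inl_injective (Sum.inr_injective h)
    rw [Prod.mk.injEq] at h1
    rw [hE h1.1, h1.2]
  · exact absurd h (by simp [opMap])
  · exact absurd h (by simp [opMap])
  · exact absurd h (by simp [opMap])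
  · have h1 : b = b' := Sum.inr_injective (Sum.inr_injective h)
    rw [h1]

theorem opMap_adj (k : ℕ) {H H' : BG} (f : H.V → H'.V)
    (hadj : ∀ x y, H.G.Adj x y → H'.G.Adj (f x) (f y)) (hc : ∀ x, H'.c (f x) = H.c x)
    (hf : Function.Injective f) (x y : opV k H) (h : (opG k H).Adj x y) :
    (opG k H').Adj (opMap k f hadj hc x) (opMap k f hadj hc y) := by
  unfold opG at h ⊢
  rw [SimpleGraph.fromRel_adj] at h ⊢
  refine ⟨(opMap_inj k f hadj hc hf).ne h.1, ?_⟩
  rcases h.2 with h | h
  · exact Or.inl (opMap_rel k f hadj hc _ _ h)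
  · exact Or.inr (opMap_rel k f hadj hc _ _ h)

theorem opMap_c (k : ℕ) {H H' : BG} (f : H.V → H'.V)
    (hadj : ∀ x y, H.G.Adj x y → H'.G.Adj (f x) (f y)) (hc : ∀ x, H'.c (f x) = H.c x)
    (x : opV k H) : opc k H' (opMap k f hadj hc x) = opc k H x := by
  rcases x with a | ⟨e, i⟩ | b
  · simp only [opMap, opc, hc]
  · rfl
  · rfl

end BG

theorem iter_copies_aux (ks : List ℕ) (P : ℕ) :
    ∃ i : Fin (P + 1) → (iter ks (star 0)).V → (iter ks (star P)).V,
      Function.Injective i ∧ (∀ a, Function.Injective (i a)) ∧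
      (∀ a x y, (iter ks (star 0)).G.Adj x y → (iter ks (star P)).G.Adj (i a x) (i a y)) ∧
      (∀ a x, (iter ks (star P)).c (i a x) = (iter ks (star 0)).c x) ∧
      ∀ a b x, root 0 ks x → i a x = i b x := by
  induction ks with
  | nil =>
    let i : Fin (P + 1) → Option (Fin (0 + 1)) → Option (Fin (P + 1)) :=
      fun a x => x.map (fun _ => a)
    refine ⟨i, ?_, ?_, ?_, ?_, ?_⟩
    · intro a b h
      have h1 : i a (some 0) = i b (some 0) := congrFun h (some 0)
      exact Option.some_injective _ h1
    · intro a x y h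
      cases x with
      | none =>
        cases y with
        | none => rfl
        | some y => exact absurd h (by simp [i])
      | some x =>
        cases y with
        | none => exact absurd h (by simp [i])
        | some y => exact congrArg some (Fin.ext (by omega))
    · have goal' : ∀ (a : Fin (P + 1)) (x y : Option (Fin (0 + 1))), (SimpleGraph.fromRel
          (fun a b : Option (Fin (0 + 1)) => a = none ∧ b ≠ none)).Adj x y →
          (SimpleGraph.fromRel
          (fun a b : Option (Fin (P + 1)) => a = none ∧ b ≠ none)).Adj (i a x) (i a y) := by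
        intro a x y h'
        rw [SimpleGraph.fromRel_adj] at h' ⊢
        obtain ⟨hne, ⟨hx, hy⟩ | ⟨hy, hx⟩⟩ := h'
        · cases x with
          | some x => exact absurd hx (by simp)
          | none =>
            cases y with
            | none => exact absurd rfl hy
            | some y => exact ⟨by simp [i], Or.inl ⟨rfl, by simp [i]⟩⟩
        · cases y with
          | some y => exact absurd hy (by simp)
          | none =>
            cases x with
            | none => exact absurd rfl hx
            | some x => exact ⟨by simp [i], Or.inr ⟨rfl, by simp [i]⟩⟩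
      exact goal'
    · intro a x
      have : ∀ x : Option (Fin (0 + 1)), (i a x).isSome = x.isSome := by
        intro x
        cases x <;> rfl
      exact this x
    · intro a b x hx
      have hx' : x = (none : Option (Fin (0 + 1))) := hx
      rw [hx']
      rfl
  | cons k ks ih =>
    obtain ⟨i, hi, hinj, hadj, hc, hr⟩ := ih
    refine ⟨fun a => BG.opMap k (i a) (hadj a) (hc a), ?_, ?_, ?_, ?_, ?_⟩
    · intro a b h
      apply hi
      funext x
      have h1 := congrFun h (Sum.inl x)
      exact Sum.inl_injective h1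
    · intro a
      exact BG.opMap_inj k (i a) (hadj a) (hc a) (hinj a)
    · intro a x y h
      exact BG.opMap_adj k (i a) (hadj a) (hc a) (hinj a) x y h
    · intro a x
      exact BG.opMap_c k (i a) (hadj a) (hc a) x
    · have key : ∀ (a b : Fin (P + 1)) (x : BG.opV k (iter ks (star 0))),
          root 0 (k :: ks) x →
          BG.opMap k (i a) (hadj a) (hc a) x = BG.opMap k (i b) (hadj b) (hc b) x := by
        intro a b x hx
        rcases x with u | ⟨e, j⟩ | t
        · exact congrArg Sum.inl (hr a b u hx)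
        · have h1 : BG.mapE (i a) (hadj a) (hc a) e = BG.mapE (i b) (hadj b) (hc b) e :=
            Subtype.ext (Prod.ext (hr a b _ hx.1) (hr a b _ hx.2))
          exact congrArg (fun z => (Sum.inr (Sum.inl (z, j)) : BG.opV k (iter ks (star P)))) h1
        · rfl
      exact key

theorem iter_copies (ks : List ℕ) (P : ℕ) :
    ∃ i : Fin (P + 1) → (iter ks (star 0)).V → (iter ks (star P)).V,
      Function.Injective i ∧ (∀ a, Function.Injective (i a)) ∧
      (∀ a x y, (iter ks (star 0)).G.Adj x y → (iter ks (star P)).G.Adj (i a x) (i a y)) ∧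
      ∀ a b x, root 0 ks x → i a x = i b x := by
  obtain ⟨i, h1, h2, h3, -, h5⟩ := iter_copies_aux ks P
  exact ⟨i, h1, h2, h3, h5⟩

/-! ### counting edges -/

theorem touch_eq_card {V ι : Type*} [Fintype ι] (T : SimpleGraph V) (f : ι → Sym2 V)
    (hf : Function.Injective f) (hr : ∀ e, e ∈ T.edgeSet ↔ ∃ z, f z = e) (S : Finset V)
    [DecidablePred fun z => ∃ x ∈ S, x ∈ f z] :
    touch T S = (Finset.univ.filter (fun z => ∃ x ∈ S, x ∈ f z)).card := by
  unfold touch
  rw [← Fintype.card_subtype, ← Nat.card_eq_fintype_card]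
  symm
  apply Nat.card_eq_of_bijective (fun z : {z // ∃ x ∈ S, x ∈ f z} =>
    (⟨f z.1, (hr _).2 ⟨z.1, rfl⟩, z.2⟩ : {e : Sym2 V // e ∈ T.edgeSet ∧ ∃ x ∈ S, x ∈ e}))
  constructor
  · intro a b h
    exact Subtype.ext (hf (congrArg Subtype.val h))
  · rintro ⟨e, he, hS⟩
    obtain ⟨z, rfl⟩ := (hr e).1 he
    exact ⟨⟨z, hS⟩, rfl⟩

namespace BG

theorem E_edges (H : BG) (e : Sym2 H.V) :
    e ∈ H.G.edgeSet ↔ ∃ z : H.E, s(z.1.1, z.1.2) = e := by
  induction e with
  | _ x y =>
    rw [SimpleGraph.mem_edgeSet]
    constructor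
    · intro h
      have hc := H.proper h
      cases hx : H.c x with
      | false =>
        rw [hx] at hc
        have hy : H.c y = true := by
          cases h' : H.c y with
          | false => exact absurd h'.symm hc
          | true => rfl
        exact ⟨⟨(x, y), h, hx, hy⟩, rfl⟩
      | true =>
        rw [hx] at hc
        have hy : H.c y = false := by
          cases h' : H.c y with
          | false => rfl
          | true => exact absurd h'.symm hc
        exact ⟨⟨(y, x), h.symm, hy, hx⟩, Sym2.eq_swap⟩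
    · rintro ⟨z, hz⟩
      rw [Sym2.eq_iff] at hz
      rcases hz with ⟨h1, h2⟩ | ⟨h1, h2⟩
      · rw [← h1, ← h2]; exact z.2.1
      · rw [← h1, ← h2]; exact z.2.1.symm

theorem E_inj (H : BG) : Function.Injective (fun z : H.E => s(z.1.1, z.1.2)) := by
  intro z z' h
  have h' : s(z.1.1, z.1.2) = s(z'.1.1, z'.1.2) := h
  rw [Sym2.eq_iff] at h'
  rcases h' with ⟨h1, h2⟩ | ⟨h1, h2⟩
  · exact Subtype.ext (Prod.ext h1 h2)
  · exfalso
    have h3 := z.2.2.1
    rw [h1, z'.2.2.2] at h3
    exact absurd h3 (by simp)

theorem pt_mid {H : BG} (k : ℕ) (e : H.E) (i : ℕ) (hi : i < k) :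
    pt k e (i + 1) = Sum.inr (Sum.inl (e, ⟨i, hi⟩)) := by
  unfold pt
  rw [if_neg (Nat.succ_ne_zero i), dif_pos (by omega)]
  rfl

theorem pt_cases {H : BG} (k : ℕ) (e : H.E) (i : ℕ) (hi : i ≤ k + 1) :
    (i = 0 ∧ pt k e i = Sum.inl e.1.1) ∨ (i = k + 1 ∧ pt k e i = Sum.inl e.1.2) ∨
      ∃ j, ∃ hj : j < k, i = j + 1 ∧ pt k e i = Sum.inr (Sum.inl (e, ⟨j, hj⟩)) := by
  rcases Nat.eq_zero_or_pos i with h0 | h0
  · exact Or.inl ⟨h0, by rw [h0]; rfl⟩
  · rcases Nat.lt_or_ge i (k + 1) with h1 | h1
    · refine Or.inr (Or.inr ⟨i - 1, by omega, by omega, ?_⟩)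
      have h2 : i = (i - 1) + 1 := by omega
      conv_lhs => rw [h2]
      exact pt_mid k e (i - 1) (by omega)
    · have h2 : i = k + 1 := le_antisymm hi h1
      exact Or.inr (Or.inl ⟨h2, by rw [h2]; exact pt_last k e⟩)

theorem pt_eq {H : BG} (k : ℕ) (e e' : H.E) (i j : ℕ) (hi : i ≤ k + 1) (hj : j ≤ k + 1)
    (h : pt k e i = pt k e' j) : i = j ∧ (i = 0 → e.1.1 = e'.1.1) ∧
      (i = k + 1 → e.1.2 = e'.1.2) ∧ (0 < i → i < k + 1 → e = e') := by
  rcases pt_cases k e i hi with ⟨h1, h2⟩ | ⟨h1, h2⟩ | ⟨a, ha, h1, h2⟩ <;>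
  rcases pt_cases k e' j hj with ⟨h3, h4⟩ | ⟨h3, h4⟩ | ⟨b, hb, h3, h4⟩ <;>
  rw [h2, h4] at h
  · have h5 := Sum.inl_injective h
    exact ⟨by omega, fun _ => h5, fun _ => by omega, fun _ _ => by omega⟩
  · exfalso
    have h5 := Sum.inl_injective h
    have h6 := e.2.2.1
    rw [h5, e'.2.2.2] at h6
    exact absurd h6 (by simp)
  · exact absurd h (by simp)
  · exfalso
    have h5 := Sum.inl_injective h
    have h6 := e.2.2.2
    rw [h5, e'.2.2.1] at h6
    exact absurd h6 (by simp)
  · have h5 := Sum.inl_injective h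
    exact ⟨by omega, fun _ => by omega, fun _ => h5, fun _ _ => by omega⟩
  · exact absurd h (by simp)
  · exact absurd h (by simp)
  · exact absurd h (by simp)
  · have h5 := Sum.inl_injective (Sum.inr_injective h)
    rw [Prod.mk.injEq, Fin.mk.injEq] at h5
    exact ⟨by omega, fun _ => by omega, fun _ => by omega, fun _ _ => h5.1⟩

theorem pt_ne_apex {H : BG} (k : ℕ) (e : H.E) (i : ℕ) (b : Bool) :
    pt k e i ≠ apex k b := by
  unfold pt apex
  split_ifs <;> simp

/-- the edges of `op k H` -/
def opE (k : ℕ) (H : BG) : (H.E × Fin (k + 1)) ⊕ H.V → Sym2 (opV k H)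
  | Sum.inl z => s(pt k z.1 z.2, pt k z.1 (z.2 + 1))
  | Sum.inr a => s(apex k (H.c a), Sum.inl a)

theorem opE_inj (k : ℕ) (H : BG) : Function.Injective (opE k H) := by
  intro z z' h
  rcases z with ⟨e, i⟩ | a <;> rcases z' with ⟨e', i'⟩ | a'
  · have h' : s(pt k e i, pt k e (i + 1)) = s(pt k e' i', pt k e' (i' + 1)) := h
    have hi := i.2
    have hi' := i'.2
    rw [Sym2.eq_iff] at h'
    rcases h' with ⟨h1, h2⟩ | ⟨h1, h2⟩
    · have h3 := pt_eq k e e' i i' (by omega) (by omega) h1
      have h4 := pt_eq k e e' (i + 1) (i' + 1) (by omega) (by omega) h2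
      have h5 : e = e' := by
        rcases Nat.eq_zero_or_pos (i : ℕ) with h0 | h0
        · rcases Nat.eq_zero_or_pos k with hk | hk
          · exact Subtype.ext (Prod.ext (h3.2.1 h0) (h4.2.2.1 (by omega)))
          · exact h4.2.2.2 (by omega) (by omega)
        · exact h3.2.2.2 h0 hi
      rw [h5, Fin.ext h3.1]
    · exfalso
      have h3 := (pt_eq k e e' i (i' + 1) (by omega) (by omega) h1).1
      have h4 := (pt_eq k e e' (i + 1) i' (by omega) (by omega) h2).1
      omega
  · exfalso
    have h' : s(pt k e i, pt k e (i + 1)) = s(apex k (H.c a'), Sum.inl a') := h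
    rw [Sym2.eq_iff] at h'
    rcases h' with ⟨h1, h2⟩ | ⟨h1, h2⟩
    · exact pt_ne_apex k e i _ h1
    · exact pt_ne_apex k e _ _ h2
  · exfalso
    have h' : s(apex k (H.c a), Sum.inl a) = s(pt k e' i', pt k e' (i' + 1)) := h
    rw [Sym2.eq_iff] at h'
    rcases h' with ⟨h1, h2⟩ | ⟨h1, h2⟩
    · exact pt_ne_apex k e' i' _ h1.symm
    · exact pt_ne_apex k e' _ _ h1.symm
  · have h' : s((apex k (H.c a) : opV k H), Sum.inl a) = s(apex k (H.c a'), Sum.inl a') := h
    rw [Sym2.eq_iff] at h'
    rcases h' with ⟨h1, h2⟩ | ⟨h1, h2⟩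
    · rw [Sum.inl_injective h2]
    · exact absurd h1 (by simp [apex])

theorem opE_edges (k : ℕ) (H : BG) (e : Sym2 (opV k H)) :
    e ∈ (opG k H).edgeSet ↔ ∃ z, opE k H z = e := by
  induction e with
  | _ x y =>
    rw [SimpleGraph.mem_edgeSet]
    unfold opG
    rw [SimpleGraph.fromRel_adj]
    have key : ∀ x y, opRel k H x y → ∃ z, opE k H z = s(x, y) := by
      rintro x y (⟨e, i, hi, rfl, rfl⟩ | ⟨a, rfl, rfl⟩)
      · exact ⟨Sum.inl (e, ⟨i, hi⟩), rfl⟩
      · exact ⟨Sum.inr a, rfl⟩
    constructor
    · rintro ⟨-, h | h⟩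
      · exact key x y h
      · obtain ⟨z, hz⟩ := key y x h
        exact ⟨z, hz.trans Sym2.eq_swap⟩
    · rintro ⟨z, hz⟩
      have key2 : ∃ u v, u ≠ v ∧ opRel k H u v ∧ opE k H z = s(u, v) := by
        rcases z with ⟨e, i⟩ | a
        · refine ⟨_, _, ?_, Or.inl ⟨e, i, i.2, rfl, rfl⟩, rfl⟩
          intro h
          have hi := i.2
          have := (pt_eq k e e i (i + 1) (by omega) (by omega) h).1
          omega
        · refine ⟨_, _, ?_, Or.inr ⟨a, rfl, rfl⟩, rfl⟩
          simp [apex]
      obtain ⟨u, v, huv, hrel, hz'⟩ := key2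
      rw [hz', Sym2.eq_iff] at hz
      rcases hz with ⟨h1, h2⟩ | ⟨h1, h2⟩
      · subst h1 h2
        exact ⟨huv, Or.inl hrel⟩
      · subst h1 h2
        exact ⟨huv.symm, Or.inr hrel⟩

end BG

/-! ### balancedness -/

theorem exists_mem_sym2 {V : Type*} (S : Finset V) (u v : V) :
    (∃ x ∈ S, x ∈ s(u, v)) ↔ u ∈ S ∨ v ∈ S := by
  constructor
  · rintro ⟨x, hx, h⟩
    rw [Sym2.mem_iff] at h
    rcases h with rfl | rfl
    · exact Or.inl hx
    · exact Or.inr hx
  · rintro (h | h)
    · exact ⟨u, h, Sym2.mem_mk_left u v⟩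
    · exact ⟨v, h, Sym2.mem_mk_right u v⟩

/-- roots of `op k H` -/
def opRoot (k : ℕ) (H : BG) (R : H.V → Prop) : BG.opV k H → Prop
  | Sum.inl a => R a
  | Sum.inr (Sum.inl y) => R y.1.1.1 ∧ R y.1.1.2
  | Sum.inr (Sum.inr _) => True

section Count
open Classical BG

variable (k : ℕ) (H : BG)

/-- old vertices in `S'` -/
noncomputable def oldPart (S' : Finset (opV k H)) : Finset H.V :=
  Finset.univ.filter fun a => (Sum.inl a : opV k H) ∈ S'

/-- number of inner vertices on `e` in `S'` -/
noncomputable def innerNum (S' : Finset (opV k H)) (e : H.E) : ℕ :=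
  (Finset.univ.filter fun i : Fin k => (Sum.inr (Sum.inl (e, i)) : opV k H) ∈ S').card

/-- number of touched edges on the path of `e` -/
noncomputable def pathNum (S' : Finset (opV k H)) (e : H.E) : ℕ :=
  (Finset.univ.filter fun i : Fin (k + 1) => pt k e i ∈ S' ∨ pt k e (i + 1) ∈ S').card

theorem card_split (S' : Finset (opV k H)) (hS : ∀ b : Bool, (Sum.inr (Sum.inr b) : opV k H) ∉ S') :
    S'.card = (oldPart k H S').card + ∑ e, innerNum k H S' e := by
  have h1 : S'.card = (Finset.univ.filter fun x => x ∈ S').card := by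
    rw [Finset.filter_univ_mem]
  rw [h1, Finset.card_filter, Fintype.sum_sum_type, Fintype.sum_sum_type,
    Fintype.sum_prod_type]
  have h2 : ∑ b : Bool, (if (Sum.inr (Sum.inr b) : opV k H) ∈ S' then 1 else 0) = 0 := by
    apply Finset.sum_eq_zero
    intro b _
    rw [if_neg (hS b)]
  rw [h2, add_zero]
  unfold oldPart innerNum
  simp only [Finset.card_filter]

theorem touch_split (S' : Finset (opV k H)) (hS : ∀ b : Bool, (Sum.inr (Sum.inr b) : opV k H) ∉ S') :
    touch (opG k H) S' = ∑ e, pathNum k H S' e + (oldPart k H S').card := by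
  rw [touch_eq_card (opG k H) (opE k H) (opE_inj k H) (opE_edges k H) S', Finset.card_filter,
    Fintype.sum_sum_type, Fintype.sum_prod_type]
  congr 1
  · apply Finset.sum_congr rfl
    intro e _
    unfold pathNum
    rw [Finset.card_filter]
    apply Finset.sum_congr rfl
    intro i _
    have h : (∃ x ∈ S', x ∈ opE k H (Sum.inl (e, i))) ↔
        (pt k e i ∈ S' ∨ pt k e (i + 1) ∈ S') := exists_mem_sym2 S' _ _
    simp only [h]
  · unfold oldPart
    rw [Finset.card_filter]
    apply Finset.sum_congr rfl
    intro a _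
    have h : (∃ x ∈ S', x ∈ opE k H (Sum.inr a)) ↔ ((Sum.inl a : opV k H) ∈ S') := by
      have h1 : (∃ x ∈ S', x ∈ opE k H (Sum.inr a)) ↔
        (apex k (H.c a) ∈ S' ∨ (Sum.inl a : opV k H) ∈ S') := exists_mem_sym2 S' _ _
      rw [h1]
      constructor
      · rintro (h | h)
        · exact absurd h (hS _)
        · exact h
      · exact Or.inr
    simp only [h]

theorem touch_H (S : Finset H.V) :
    touch H.G S = ∑ e : H.E, (if e.1.1 ∈ S ∨ e.1.2 ∈ S then 1 else 0) := by
  rw [touch_eq_card H.G (fun z : H.E => s(z.1.1, z.1.2)) (E_inj H) (E_edges H) S,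
    Finset.card_filter]
  apply Finset.sum_congr rfl
  intro e _
  have h := exists_mem_sym2 S e.1.1 e.1.2
  simp only [h]

/-- edges which are touched -/
noncomputable def tau (S' : Finset (opV k H)) (e : H.E) : ℕ :=
  if (e.1.1 ∈ oldPart k H S' ∨ e.1.2 ∈ oldPart k H S') ∨ 0 < innerNum k H S' e then 1 else 0

theorem inner_le (S' : Finset (opV k H)) (e : H.E) :
    innerNum k H S' e ≤ k * tau k H S' e := by
  unfold tau
  split_ifs with h
  · rw [mul_one]
    unfold innerNum
    exact (Finset.card_filter_le _ _).trans (by simp)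
  · push Not at h
    omega

theorem inner_add_tau_le (S' : Finset (opV k H)) (e : H.E) :
    innerNum k H S' e + tau k H S' e ≤ pathNum k H S' e := by
  rcases Nat.eq_zero_or_pos (innerNum k H S' e) with h0 | h0
  · rw [h0, zero_add]
    unfold tau
    split_ifs with h
    · unfold pathNum
      rw [Nat.one_le_iff_ne_zero, Finset.card_ne_zero]
      rcases h with (h | h) | h
      · refine ⟨0, ?_⟩
        rw [Finset.mem_filter]
        refine ⟨Finset.mem_univ _, Or.inl ?_⟩
        unfold oldPart at h
        rw [Finset.mem_filter] at h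
        exact h.2
      · refine ⟨Fin.last k, ?_⟩
        rw [Finset.mem_filter]
        refine ⟨Finset.mem_univ _, Or.inr ?_⟩
        unfold oldPart at h
        rw [Finset.mem_filter] at h
        rw [Fin.val_last, pt_last]
        exact h.2
      · omega
    · exact Nat.zero_le _
  · have ht : tau k H S' e = 1 := by
      unfold tau
      rw [if_pos (Or.inr h0)]
    rw [ht]
    unfold innerNum at h0 ⊢
    unfold pathNum
    set A := Finset.univ.filter fun i : Fin k => (Sum.inr (Sum.inl (e, i)) : opV k H) ∈ S'
      with hA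
    have hne : A.Nonempty := Finset.card_pos.1 h0
    have hmem : ∀ i ∈ A, (Sum.inr (Sum.inl (e, i)) : opV k H) ∈ S' := by
      intro i hi
      rw [hA, Finset.mem_filter] at hi
      exact hi.2
    have hpt : ∀ i ∈ A, pt k e ((i : ℕ) + 1) ∈ S' := by
      intro i hi
      rw [pt_mid k e i i.2]
      exact hmem i hi
    have hcard : (insert (A.max' hne).succ (A.map Fin.castSuccEmb)).card = A.card + 1 := by
      rw [Finset.card_insert_of_notMem, Finset.card_map]
      intro h
      rw [Finset.mem_map] at h
      obtain ⟨j, hj, hj'⟩ := h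
      have h1 := Finset.le_max' A j hj
      have h2 : (j : ℕ) = (A.max' hne : ℕ) + 1 := by
        have := congrArg Fin.val hj'
        simpa using this
      have h3 : (j : ℕ) ≤ (A.max' hne : ℕ) := h1
      omega
    rw [← hcard]
    apply Finset.card_le_card
    intro i hi
    rw [Finset.mem_insert, Finset.mem_map] at hi
    rw [Finset.mem_filter]
    refine ⟨Finset.mem_univ _, ?_⟩
    rcases hi with rfl | ⟨j, hj, rfl⟩
    · left
      have := hpt _ (Finset.max'_mem A hne)
      simpa using this
    · right
      have := hpt _ hj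
      simpa using this

end Count

theorem op_bal (k : ℕ) (H : BG) (R : H.V → Prop) (x : ℝ) (hx : 0 ≤ x) (hx1 : x < 1)
    (hb : Bal H.G R (1 - x)) :
    Bal (BG.opG k H) (opRoot k H R) (1 - 1 / ((k : ℝ) + 2 - x)) := by
  classical
  obtain ⟨hb1, hb2, hb3⟩ := hb
  have hk : (0 : ℝ) ≤ k := Nat.cast_nonneg k
  have hD : (0 : ℝ) < (k : ℝ) + 2 - x := by linarith
  have hD1 : (1 : ℝ) ≤ (k : ℝ) + 2 - x := by linarith
  set D : ℝ := (k : ℝ) + 2 - x with hDdef
  have hinv : 1 / D ≤ 1 := by
    rw [div_le_one hD]
    exact hD1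
  refine ⟨?_, ?_, ?_⟩
  · obtain ⟨a, ha⟩ := hb1
    exact ⟨Sum.inl a, ha⟩
  · intro S' hS'
    have hap : ∀ b : Bool, (Sum.inr (Sum.inr b) : BG.opV k H) ∉ S' :=
      fun b hb => hS' _ hb trivial
    have hS : ∀ a ∈ oldPart k H S', ¬ R a := by
      intro a ha
      unfold oldPart at ha
      rw [Finset.mem_filter] at ha
      exact hS' _ ha.2
    have h1 := hb2 _ hS
    have h2 : touch H.G (oldPart k H S') ≤ ∑ e, tau k H S' e := by
      rw [touch_H]
      apply Finset.sum_le_sum
      intro e _
      unfold tau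
      split_ifs with h3 h4 h4
      · exact le_rfl
      · exact absurd (Or.inl h3) h4
      · exact Nat.zero_le _
      · exact le_rfl
    have h3 : ∑ e, innerNum k H S' e ≤ k * ∑ e, tau k H S' e := by
      rw [Finset.mul_sum]
      exact Finset.sum_le_sum fun e _ => inner_le k H S' e
    have h4 : ∑ e, innerNum k H S' e + ∑ e, tau k H S' e ≤ ∑ e, pathNum k H S' e := by
      rw [← Finset.sum_add_distrib]
      exact Finset.sum_le_sum fun e _ => inner_add_tau_le k H S' e
    rw [card_split k H S' hap, touch_split k H S' hap]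
    push_cast
    have h2' : (touch H.G (oldPart k H S') : ℝ) ≤ ∑ e, (tau k H S' e : ℝ) := by
      exact_mod_cast h2
    have h3' : (∑ e, (innerNum k H S' e : ℝ)) ≤ k * ∑ e, (tau k H S' e : ℝ) := by
      exact_mod_cast h3
    have h4' : (∑ e, (innerNum k H S' e : ℝ)) + ∑ e, (tau k H S' e : ℝ) ≤
        ∑ e, (pathNum k H S' e : ℝ) := by
      exact_mod_cast h4
    set s : ℝ := ((oldPart k H S').card : ℝ) with hs
    set ρ : ℝ := ∑ e, (innerNum k H S' e : ℝ) with hρ
    set T : ℝ := ∑ e, (tau k H S' e : ℝ) with hT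
    set β : ℝ := ∑ e, (pathNum k H S' e : ℝ) with hβ
    have h5 : s + ρ ≤ (D - 1) * T := by
      have h6 : s ≤ (1 - x) * T := h1.trans (mul_le_mul_of_nonneg_left h2' (by linarith))
      rw [hDdef]
      linarith
    have h7 : (1 - 1 / D) * (ρ + T + s) ≤ (1 - 1 / D) * (β + s) :=
      mul_le_mul_of_nonneg_left (by linarith) (by linarith)
    refine le_trans ?_ h7
    have h8 : (s + ρ) / D ≤ (1 - 1 / D) * T := by
      rw [div_le_iff₀ hD]
      have : (1 - 1 / D) * T * D = (D - 1) * T := by
        field_simp
      rw [this]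
      exact h5
    have h9 : (1 - 1 / D) * (ρ + T + s) = (s + ρ) - (s + ρ) / D + (1 - 1 / D) * T := by
      ring
    rw [h9]
    linarith
  · intro S' hS'
    have hap : ∀ b : Bool, (Sum.inr (Sum.inr b) : BG.opV k H) ∉ S' :=
      fun b hb => ((hS' _).1 hb) trivial
    have hS : ∀ a, a ∈ oldPart k H S' ↔ ¬ R a := by
      intro a
      unfold oldPart
      rw [Finset.mem_filter]
      constructor
      · intro h
        exact (hS' _).1 h.2
      · intro h
        exact ⟨Finset.mem_univ _, (hS' (Sum.inl a)).2 h⟩
    have h1 := hb3 _ hS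
    have h2 : ∀ e : H.E, innerNum k H S' e =
        k * (if e.1.1 ∈ oldPart k H S' ∨ e.1.2 ∈ oldPart k H S' then 1 else 0) := by
      intro e
      unfold innerNum
      split_ifs with h
      · rw [mul_one]
        have : (Finset.univ.filter fun i : Fin k =>
            (Sum.inr (Sum.inl (e, i)) : BG.opV k H) ∈ S') = Finset.univ := by
          rw [Finset.filter_eq_self]
          intro i _
          rw [hS']
          rw [hS, hS] at h
          intro h3
          rcases h with h | h
          · exact h h3.1
          · exact h h3.2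
        rw [this, Finset.card_univ, Fintype.card_fin]
      · rw [mul_zero, Finset.card_eq_zero, Finset.filter_eq_empty_iff]
        intro i _
        rw [hS']
        rw [hS, hS] at h
        push Not at h
        intro h3
        exact h3 ⟨h.1, h.2⟩
    have h3 : ∀ e : H.E, pathNum k H S' e =
        (k + 1) * (if e.1.1 ∈ oldPart k H S' ∨ e.1.2 ∈ oldPart k H S' then 1 else 0) := by
      intro e
      unfold pathNum
      split_ifs with h
      · rw [mul_one]
        have : (Finset.univ.filter fun i : Fin (k + 1) =>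
            BG.pt k e i ∈ S' ∨ BG.pt k e (i + 1) ∈ S') = Finset.univ := by
          rw [Finset.filter_eq_self]
          intro i _
          have hin : ∀ j : ℕ, ∀ hj : j < k, BG.pt k e (j + 1) ∈ S' := by
            intro j hj
            rw [BG.pt_mid k e j hj, hS']
            rw [hS, hS] at h
            intro h3
            rcases h with h | h
            · exact h h3.1
            · exact h h3.2
          rcases Nat.lt_or_ge (i : ℕ) k with hi | hi
          · exact Or.inr (hin i hi)
          · have hi' : (i : ℕ) = k := by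
              have := i.2
              omega
            rw [hi']
            rcases Nat.eq_zero_or_pos k with hk0 | hk0
            · subst hk0
              rcases h with h | h
              · left
                unfold oldPart at h
                rw [Finset.mem_filter] at h
                exact h.2
              · right
                unfold oldPart at h
                rw [Finset.mem_filter] at h
                rw [BG.pt_last]
                exact h.2
            · left
              have h4 := hin (k - 1) (by omega)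
              have h5 : k - 1 + 1 = k := by omega
              rwa [h5] at h4
        rw [this, Finset.card_univ, Fintype.card_fin]
      · rw [mul_zero, Finset.card_eq_zero, Finset.filter_eq_empty_iff]
        intro i _
        rw [hS, hS] at h
        push Not at h
        have hroot : ∀ j : ℕ, j ≤ k + 1 → BG.pt k e j ∉ S' := by
          intro j hj
          rw [hS', not_not]
          rcases BG.pt_cases k e j hj with ⟨-, h2⟩ | ⟨-, h2⟩ | ⟨a, ha, -, h2⟩
          · rw [h2]; exact h.1
          · rw [h2]; exact h.2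
          · rw [h2]; exact ⟨h.1, h.2⟩
        have hi := i.2
        rintro (h3 | h3)
        · exact hroot _ (by omega) h3
        · exact hroot _ (by omega) h3
    have h4 : ∑ e, innerNum k H S' e = k * touch H.G (oldPart k H S') := by
      rw [touch_H, Finset.mul_sum]
      exact Finset.sum_congr rfl fun e _ => h2 e
    have h5 : ∑ e, pathNum k H S' e = (k + 1) * touch H.G (oldPart k H S') := by
      rw [touch_H, Finset.mul_sum]
      exact Finset.sum_congr rfl fun e _ => h3 e
    rw [card_split k H S' hap, touch_split k H S' hap, h4, h5]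
    push_cast
    rw [h1]
    have h6 : (1 - 1 / D) * D = D - 1 := by
      field_simp
    have h7 : ((k : ℝ) + 1) * (touch H.G (oldPart k H S') : ℝ) +
        (1 - x) * (touch H.G (oldPart k H S') : ℝ) = D * (touch H.G (oldPart k H S') : ℝ) := by
      rw [hDdef]; ring
    rw [h7, ← mul_assoc, h6, hDdef]
    ring

theorem star_touch (S : Finset (Option (Fin (0 + 1)))) (hS : none ∉ S) :
    touch (SimpleGraph.fromRel (fun a b : Option (Fin (0 + 1)) => a = none ∧ b ≠ none)) S =
      S.card := by
  classical
  have hinj : Function.Injective (fun z : Fin (0 + 1) => s((none : Option (Fin (0 + 1))), some z)) := by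
    intro a b _
    exact Fin.ext (by omega)
  have hr : ∀ e, e ∈ (SimpleGraph.fromRel
      (fun a b : Option (Fin (0 + 1)) => a = none ∧ b ≠ none)).edgeSet ↔
      ∃ z : Fin (0 + 1), s((none : Option (Fin (0 + 1))), some z) = e := by
    intro e
    induction e with
    | _ x y =>
      rw [SimpleGraph.mem_edgeSet, SimpleGraph.fromRel_adj]
      constructor
      · rintro ⟨-, ⟨rfl, hy⟩ | ⟨rfl, hx⟩⟩
        · cases y with
          | none => exact absurd rfl hy
          | some y => exact ⟨y, rfl⟩
        · cases x with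
          | none => exact absurd rfl hx
          | some x => exact ⟨x, Sym2.eq_swap⟩
      · rintro ⟨z, hz⟩
        rw [Sym2.eq_iff] at hz
        rcases hz with ⟨h1, h2⟩ | ⟨h1, h2⟩
        · rw [← h1, ← h2]
          exact ⟨by simp, Or.inl ⟨rfl, by simp⟩⟩
        · rw [← h1, ← h2]
          exact ⟨by simp, Or.inr ⟨rfl, by simp⟩⟩
  rw [touch_eq_card _ _ hinj hr S, Finset.card_filter]
  have h1 : S.card = (Finset.univ.filter fun x => x ∈ S).card := by
    rw [Finset.filter_univ_mem]
  rw [h1, Finset.card_filter, Fintype.sum_option, if_neg hS]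
  refine Eq.trans ?_ (Nat.zero_add _).symm
  apply Finset.sum_congr rfl
  intro z _
  have h2 := exists_mem_sym2 S none (some z)
  have h3 : (∃ x ∈ S, x ∈ s((none : Option (Fin (0 + 1))), some z)) ↔ some z ∈ S := by
    rw [h2]
    constructor
    · rintro (h | h)
      · exact absurd h hS
      · exact h
    · exact Or.inr
  simp only [h3]

theorem iter_bal (ks : List ℕ) : Bal (iter ks (star 0)).G (root 0 ks) (1 - xs ks) := by
  induction ks with
  | nil =>
    have key : Bal (SimpleGraph.fromRel (fun a b : Option (Fin (0 + 1)) => a = none ∧ b ≠ none))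
        (fun x => x = none) (1 - 0) := by
      refine ⟨⟨some 0, by simp⟩, ?_, ?_⟩
      · intro S hS
        rw [star_touch S (fun h => hS _ h rfl), sub_zero, one_mul]
      · intro S hS
        rw [star_touch S (fun h => (hS _).1 h rfl), sub_zero, one_mul]
    exact key
  | cons k ks ih =>
    have hx := xs_mem ks
    have h : root 0 (k :: ks) = opRoot k (iter ks (star 0)) (root 0 ks) := by
      have h' : ∀ x : BG.opV k (iter ks (star 0)),
          root 0 (k :: ks) x = opRoot k (iter ks (star 0)) (root 0 ks) x := by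
        intro x
        rcases x with a | y | b
        · rfl
        · rfl
        · rfl
      exact funext h'
    rw [h]
    exact op_bal k (iter ks (star 0)) (root 0 ks) (xs ks) hx.1 hx.2 ih

end Pool.Agent.Helper97.RE
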