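import Pool.Agent.Helper97.RE.Lib.Helper48_Avg

/-!
# A good parameter for every large prime
-/

set_option autoImplicit false

namespace Pool.Agent.Helper97.RE

open Finset

theorem card_exists_le {A I : Type} [Fintype A] [Fintype I] (P : I → A → Prop) :
    Nat.card {c : A // ∃ i, P i c} ≤ ∑ i, Nat.card {c : A // P i c} := by
  classical
  rw [← Nat.card_sigma]
  refine Nat.card_le_card_of_injective
    (fun c => ⟨Classical.choose c.2, c.1, Classical.choose_spec c.2⟩) ?_
  intro c c' hcc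
  simp only [Sigma.mk.injEq] at hcc
  obtain ⟨h1, h2⟩ := hcc
  apply Subtype.ext
  have h3 : ∀ (i i' : I) (h : i = i') (u : {c : A // P i c}) (w : {c : A // P i' c}),
      HEq u w → u.1 = w.1 := by
    intro i i' h u w huw
    subst h
    rw [eq_of_heq huw]
  exact h3 _ _ h1 _ _ h2

/-- The conclusion of `codim` for given `D`, `C`. -/
def CodimAt {V : Type} (T : SimpleGraph V) (root : V → Prop) (d v s D C : ℕ) : Prop :=
  ∀ (p : ℕ) [Fact p.Prime] (σ : V → Bool),
      (∀ a b, T.Adj a b → σ a ≠ σ b) → ∀ (r : V → Fin d → ZMod p) (a0 : V) (i0 : Fin d),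
      ¬ root a0 → ∀ t : Fin s → ZMod p, Function.Injective t →
      p ^ s * Nat.card {c : Par D d v p // ∀ j : Fin s, ∃ y : V → Fin d → AlgebraicClosure (ZMod p),
        IsCopy T root (AlgebraicClosure (ZMod p)) c σ r y ∧ y a0 i0 = algebraMap _ _ (t j)} ≤
      C * Fintype.card (Par D d v p)

theorem exists_param {V : Type} [Fintype V] (T : SimpleGraph V) (root : V → Prop) (d v : ℕ)
    (hd : 0 < d)
    (hcodim : ∃ D C : ℕ, CodimAt T root d v (d * Fintype.card V + (v + 1)) D C) :
    ∃ D C2 p0 : ℕ, ∀ (p : ℕ) [Fact p.Prime], p0 ≤ p → ∃ c : Par D d v p,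
      p ^ (2 * d) ≤ 2 * p ^ v * Nat.card {xy : (Fin d → ZMod p) × (Fin d → ZMod p) //
        adjP (ZMod p) c xy.1 xy.2} ∧
      ∀ (σ : V → Bool), (∀ a b, T.Adj a b → σ a ≠ σ b) → ∀ r : V → Fin d → ZMod p,
        Nat.card {y : V → Fin d → ZMod p // IsCopy T root (ZMod p) c σ r y} ≤ C2 := by
  classical
  obtain ⟨D, C, hC⟩ := hcodim
  obtain ⟨C1, C2, hC2⟩ := card_copies_le T root D d v hd
  set m := Fintype.card V with hm
  set s := d * m + (v + 1) with hs
  set C3 := 2 ^ m * (m * d) * (2 ^ s * C) with hC3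
  refine ⟨D, C2, 2 * (C1 + s) + 2 * C3 + C1 + 1, ?_⟩
  intro p _ hp
  have hp0 : 0 < p := (Fact.out : p.Prime).pos
  have : NeZero p := ⟨hp0.ne'⟩
  set bad : Par D d v p → Prop := fun c =>
    ∃ i : (V → Bool) × (V → Fin d → ZMod p) × V × Fin d,
      (∀ a b, T.Adj a b → i.1 a ≠ i.1 b) ∧ ¬ root i.2.2.1 ∧
        BadAt T root C1 c i.1 i.2.1 i.2.2.1 i.2.2.2 with hbad
  have hbadcard : Nat.card {c // bad c} * p ^ (v + 1) ≤ C3 * Fintype.card (Par D d v p) := by
    have h1 : Nat.card {c // bad c} * p ^ s ≤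
        2 ^ m * (p ^ d) ^ m * (m * d) * (2 ^ s * C * Fintype.card (Par D d v p)) := by
      refine (Nat.mul_le_mul_right _ (card_exists_le _)).trans ?_
      rw [Finset.sum_mul]
      refine (Finset.sum_le_card_nsmul _ _ (2 ^ s * C * Fintype.card (Par D d v p)) ?_).trans ?_
      · rintro ⟨σ, r, a0, i0⟩ _
        simp only
        by_cases h : (∀ a b, T.Adj a b → σ a ≠ σ b) ∧ ¬ root a0
        · have h2 := card_bad_le (A := Par D d v p) (p := p)
            (fun c t => Hit T root c σ r a0 i0 t) s C C1 (by omega)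
            (fun t ht => hC p σ h.1 r a0 i0 h.2 t ht)
          refine le_trans (Nat.mul_le_mul_right _ ?_) h2
          refine Nat.card_le_card_of_injective (fun c => ⟨c.1, c.2.2.2⟩) ?_
          intro c c' hcc
          apply Subtype.ext
          have h5 := congrArg Subtype.val hcc
          exact h5
        · have : IsEmpty {c : Par D d v p // (∀ a b, T.Adj a b → σ a ≠ σ b) ∧ ¬ root a0 ∧
              BadAt T root C1 c σ r a0 i0} :=
            ⟨fun c => h ⟨c.2.1, c.2.2.1⟩⟩
          rw [Nat.card_of_isEmpty, zero_mul]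
          exact Nat.zero_le _
      · rw [smul_eq_mul, Finset.card_univ]
        refine Nat.mul_le_mul_right _ (le_of_eq ?_)
        simp only [Fintype.card_prod, Fintype.card_fun, Fintype.card_bool, ZMod.card,
          Fintype.card_fin]
        ring
    have h2 : (p ^ d) ^ m * (Nat.card {c // bad c} * p ^ (v + 1)) ≤
        (p ^ d) ^ m * (C3 * Fintype.card (Par D d v p)) := by
      calc (p ^ d) ^ m * (Nat.card {c // bad c} * p ^ (v + 1))
          = Nat.card {c // bad c} * p ^ s := by rw [hs, ← pow_mul, pow_add]; ring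
        _ ≤ _ := h1
        _ = _ := by rw [hC3]; ring
    exact Nat.le_of_mul_le_mul_left h2 (Nat.pow_pos (Nat.pow_pos hp0))
  have hsum : p ^ (2 * d) * Fintype.card (Par D d v p) ≤
      p ^ v * ∑ c : Par D d v p, Nat.card {xy : (Fin d → ZMod p) × (Fin d → ZMod p) //
        adjP (ZMod p) c xy.1 xy.2} := by
    have e : (Σ c : Par D d v p, {xy : (Fin d → ZMod p) × (Fin d → ZMod p) //
        adjP (ZMod p) c xy.1 xy.2}) ≃ (Σ xy : (Fin d → ZMod p) × (Fin d → ZMod p),
        {c : Par D d v p // adjP (ZMod p) c xy.1 xy.2}) :=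
      { toFun := fun x => ⟨x.2.1, x.1, x.2.2⟩
        invFun := fun x => ⟨x.2.1, x.1, x.2.2⟩
        left_inv := fun x => rfl
        right_inv := fun x => rfl }
    rw [← Nat.card_sigma, Nat.card_congr e, Nat.card_sigma, Finset.mul_sum]
    have h1 : Fintype.card ((Fin d → ZMod p) × (Fin d → ZMod p)) = p ^ (2 * d) := by
      simp only [Fintype.card_prod, Fintype.card_fun, ZMod.card, Fintype.card_fin]
      ring
    rw [← h1, ← smul_eq_mul, ← Finset.card_univ (α := (Fin d → ZMod p) × (Fin d → ZMod p)),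
      ← Finset.sum_const]
    refine Finset.sum_le_sum (fun xy _ => ?_)
    rw [mul_comm]
    exact card_adj_ge xy.1 xy.2
  have hN : ∀ c : Par D d v p, Nat.card {xy : (Fin d → ZMod p) × (Fin d → ZMod p) //
        adjP (ZMod p) c xy.1 xy.2} ≤ p ^ (2 * d) := by
    intro c
    have h1 : Nat.card ((Fin d → ZMod p) × (Fin d → ZMod p)) = p ^ (2 * d) := by
      rw [Nat.card_eq_fintype_card]
      simp only [Fintype.card_prod, Fintype.card_fun, ZMod.card, Fintype.card_fin]
      ring
    rw [← h1]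
    exact Nat.card_le_card_of_injective _ Subtype.val_injective
  obtain ⟨c, hc1, hc2⟩ := exists_good _ bad p v (p ^ (2 * d)) C3 (Nat.pow_pos hp0) (by omega)
    hN hsum hbadcard hp0
  refine ⟨c, hc2, ?_⟩
  intro σ hσ r
  refine hC2 p (by omega) c σ r ?_
  intro a0 i0 ha0 hb
  exact hc1 ⟨(σ, r, a0, i0), hσ, ha0, hb⟩

end Pool.Agent.Helper97.RE
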