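import Pool.Agent.Helper97.RE.Paths
import Pool.Agent.Helper97.RE.Lib.Helper71_OpGraph

/-!
# Rational exponent conjecture: the final count (step (3))
-/

set_option autoImplicit false

namespace Pool.Agent.Helper97.RE
open Finset

/-- position classes -/
lemma exists_labels {α W : Type*} [Fintype W] [DecidableEq W] (m : ℕ) (P : Finset α)
    (f : α → Fin (m + 1) → W) (hinj : ∀ p ∈ P, Function.Injective (f p)) :
    ∃ ℓ : W → Fin (m + 1), P.card ≤ (m + 1) ^ (m + 1) *
      (P.filter fun p => ∀ i, ℓ (f p i) = i).card := by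
  classical
  have key : ∀ p ∈ P, (m + 1) ^ (m + 1) *
      ((Finset.univ : Finset (W → Fin (m + 1))).filter fun ℓ => ∀ i, ℓ (f p i) = i).card =
        (m + 1) ^ Fintype.card W := by
    intro p hp
    set t : W → Finset (Fin (m + 1)) := fun w => Finset.univ.filter fun c => ∀ i, f p i = w → c = i
      with ht
    have e1 : ((Finset.univ : Finset (W → Fin (m + 1))).filter fun ℓ => ∀ i, ℓ (f p i) = i) =
        Fintype.piFinset t := by
      ext ℓ
      rw [Finset.mem_filter, Fintype.mem_piFinset]
      constructor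
      · rintro ⟨-, h⟩ w
        rw [ht, Finset.mem_filter]
        refine ⟨Finset.mem_univ _, ?_⟩
        rintro i rfl
        exact h i
      · intro h
        refine ⟨Finset.mem_univ _, fun i => ?_⟩
        have := h (f p i)
        rw [ht, Finset.mem_filter] at this
        exact this.2 i rfl
    have e2 : ∀ w, (t w).card = if w ∈ Finset.univ.image (f p) then 1 else m + 1 := by
      intro w
      split_ifs with h
      · obtain ⟨i, -, hi⟩ := Finset.mem_image.1 h
        rw [Finset.card_eq_one]
        refine ⟨i, ?_⟩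
        ext c
        rw [ht, Finset.mem_filter, Finset.mem_singleton]
        constructor
        · rintro ⟨-, h⟩; exact h i hi
        · rintro rfl
          refine ⟨Finset.mem_univ _, fun j hj => hinj p hp (hi.trans hj.symm)⟩
      · have : t w = Finset.univ := by
          ext c
          rw [ht, Finset.mem_filter]
          simp only [Finset.mem_univ, true_and, iff_true]
          intro i hi
          exact absurd (Finset.mem_image.2 ⟨i, Finset.mem_univ _, hi⟩) h
        rw [this, Finset.card_univ, Fintype.card_fin]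
    rw [e1, Fintype.card_piFinset, Finset.prod_congr rfl fun w _ => e2 w, Finset.prod_ite]
    simp only [Finset.prod_const_one, one_mul, Finset.prod_const]
    have e3 : (Finset.univ.filter fun w => w ∈ Finset.univ.image (f p)).card = m + 1 := by
      rw [Finset.filter_mem_eq_inter, Finset.univ_inter, Finset.card_image_of_injective _ (hinj p hp),
        Finset.card_univ, Fintype.card_fin]
    rw [← pow_add]
    congr 1
    have := Finset.card_filter_add_card_filter_not (s := (Finset.univ : Finset W))
      (fun w => w ∈ Finset.univ.image (f p))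
    rw [e3, Finset.card_univ] at this
    exact this
  by_contra hcon
  push Not at hcon
  have h1 : ∑ ℓ : W → Fin (m + 1), (m + 1) ^ (m + 1) *
      (P.filter fun p => ∀ i, ℓ (f p i) = i).card < ∑ ℓ : W → Fin (m + 1), P.card := by
    refine Finset.sum_lt_sum_of_nonempty ?_ fun ℓ _ => hcon ℓ
    exact ⟨fun _ => 0, Finset.mem_univ _⟩
  have h2 : ∑ ℓ : W → Fin (m + 1), (m + 1) ^ (m + 1) *
      (P.filter fun p => ∀ i, ℓ (f p i) = i).card = ∑ p ∈ P, (m + 1) ^ (m + 1) *
      ((Finset.univ : Finset (W → Fin (m + 1))).filter fun ℓ => ∀ i, ℓ (f p i) = i).card := by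
    rw [← Finset.mul_sum, ← Finset.mul_sum]
    congr 1
    simp only [Finset.card_filter]
    exact Finset.sum_comm
  rw [h2, Finset.sum_congr rfl key] at h1
  simp only [Finset.sum_const, Finset.card_univ, smul_eq_mul, Fintype.card_fun,
    Fintype.card_fin] at h1
  rw [mul_comm] at h1
  exact lt_irrefl _ h1

/-- greedy choice of pairwise compatible elements -/
lemma exists_indep {α : Type*} (P : Finset α) (r : α → α → Prop) (D : ℕ)
    (hrefl : ∀ p ∈ P, r p p) (hsymm : ∀ p q, r p q → r q p)
    (hD : ∀ q ∈ P, ∀ s : Finset α, (∀ p ∈ s, p ∈ P ∧ r q p) → s.card ≤ D) :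
    ∃ P' ⊆ P, (∀ p ∈ P', ∀ q ∈ P', p ≠ q → ¬ r p q) ∧ P.card ≤ D * P'.card := by
  classical
  induction P using Finset.strongInduction with
  | H P ih =>
    rcases P.eq_empty_or_nonempty with rfl | ⟨p, hp⟩
    · exact ⟨∅, Finset.Subset.refl _, by simp, by simp⟩
    · obtain ⟨P1, h1, h2, h3⟩ := ih (P.filter fun q => ¬ r p q)
        (by
          refine ⟨Finset.filter_subset _ _, fun h => ?_⟩
          have := h hp
          rw [Finset.mem_filter] at this
          exact this.2 (hrefl p hp))
        (fun q hq => hrefl q (Finset.mem_of_mem_filter q hq))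
        (fun q hq s hs => hD q (Finset.mem_of_mem_filter q hq) s fun x hx =>
          ⟨Finset.mem_of_mem_filter x (hs x hx).1, (hs x hx).2⟩)
      have hpP1 : p ∉ P1 := by
        intro h
        have := (Finset.mem_filter.1 (h1 h)).2
        exact this (hrefl p hp)
      refine ⟨insert p P1, ?_, ?_, ?_⟩
      · intro x hx
        rcases Finset.mem_insert.1 hx with rfl | hx
        · exact hp
        · exact Finset.mem_of_mem_filter x (h1 hx)
      · intro x hx y hy hxy hr
        rcases Finset.mem_insert.1 hx with hx | hx <;> rcases Finset.mem_insert.1 hy with hy | hy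
        · exact hxy (hx.trans hy.symm)
        · rw [hx] at hr
          exact (Finset.mem_filter.1 (h1 hy)).2 hr
        · rw [hy] at hr
          exact (Finset.mem_filter.1 (h1 hx)).2 (hsymm _ _ hr)
        · exact h2 x hx y hy hxy hr
      · have e1 := Finset.card_filter_add_card_filter_not (s := P) (fun q => r p q)
        have e2 := hD p hp (P.filter fun q => r p q) fun x hx => by
          rw [Finset.mem_filter] at hx; exact hx
        rw [Finset.card_insert_of_notMem hpP1, mul_add, mul_one]
        omega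

namespace BG

lemma exists_adj (H : BG) (a : H.V) : ∃ b, H.G.Adj a b := by
  obtain ⟨b, hb⟩ := H.both (!(H.c a))
  have hne : a ≠ b := by
    rintro rfl
    cases h : H.c a <;> simp [h] at hb
  obtain ⟨w⟩ := H.conn.preconnected a b
  cases w with
  | nil => exact absurd rfl hne
  | cons h _ => exact ⟨_, h⟩

lemma exists_left (H : BG) (a : H.V) (ha : H.c a = false) : ∃ e : H.E, e.1.1 = a := by
  obtain ⟨b, hb⟩ := H.exists_adj a
  have hb' : H.c b = true := by
    have := H.proper hb
    rw [ha] at this
    cases h : H.c b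
    · exact absurd h.symm this
    · rfl
  exact ⟨⟨(a, b), hb, ha, hb'⟩, rfl⟩

lemma exists_right (H : BG) (b : H.V) (hb : H.c b = true) : ∃ e : H.E, e.1.2 = b := by
  obtain ⟨a, ha⟩ := H.exists_adj b
  have ha' : H.c a = false := by
    have := H.proper ha
    rw [hb] at this
    cases h : H.c a
    · rfl
    · exact absurd h.symm this
  exact ⟨⟨(a, b), ha.symm, ha', hb⟩, rfl⟩

end BG

/-- embedding of `op k H` from a family of paths of length `k + 3` from `s` to `t` -/
lemma embed_of_paths (k : ℕ) (H : BG) {W : Type*} (G : SimpleGraph W) (s t : W) (φ : H.V → W)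
    (hφ : Function.Injective φ) (ℓ : W → Fin (k + 2)) (q : H.E → Fin (k + 3 + 1) → W)
    (hq : ∀ e, IsPath G (q e)) (h0 : ∀ e, q e 0 = s) (h1 : ∀ e, q e ⟨1, by omega⟩ = φ e.1.1)
    (h2 : ∀ e, q e ⟨k + 2, by omega⟩ = φ e.1.2) (h3 : ∀ e, q e (Fin.last (k + 3)) = t)
    (hℓ : ∀ e (i : Fin (k + 2)), ℓ (q e ⟨i + 1, by omega⟩) = i)
    (hdis : ∀ e e', e ≠ e' → ∀ i : Fin k, q e ⟨i + 2, by omega⟩ ≠ q e' ⟨i + 2, by omega⟩) :
    (BG.opG k H).IsContained G := by
  have hsφ : ∀ e : H.E, s ≠ φ e.1.1 := by
    intro e h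
    rw [← h0 e, ← h1 e] at h
    have := congrArg Fin.val ((hq e).1 h)
    simp at this
  have hsφ' : ∀ e : H.E, s ≠ φ e.1.2 := by
    intro e h
    rw [← h0 e, ← h2 e] at h
    have := congrArg Fin.val ((hq e).1 h)
    simp at this
  have htφ : ∀ e : H.E, t ≠ φ e.1.1 := by
    intro e h
    rw [← h3 e, ← h1 e] at h
    have := congrArg Fin.val ((hq e).1 h)
    simp at this
  have htφ' : ∀ e : H.E, t ≠ φ e.1.2 := by
    intro e h
    rw [← h3 e, ← h2 e] at h
    have := congrArg Fin.val ((hq e).1 h)
    simp at this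
  have hsφa : ∀ a, s ≠ φ a ∧ t ≠ φ a := by
    intro a
    cases h : H.c a
    · obtain ⟨e, rfl⟩ := H.exists_left a h
      exact ⟨hsφ e, htφ e⟩
    · obtain ⟨e, rfl⟩ := H.exists_right a h
      exact ⟨hsφ' e, htφ' e⟩
  have hst : s ≠ t := by
    obtain ⟨a, ha⟩ := H.both false
    obtain ⟨e, -⟩ := H.exists_left a ha
    intro h
    rw [← h0 e, ← h3 e] at h
    have := congrArg Fin.val ((hq e).1 h)
    simp at this
  -- labels of the images of the vertices
  have hℓφ : ∀ a, (ℓ (φ a) : ℕ) = 0 ∨ (ℓ (φ a) : ℕ) = k + 1 := by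
    intro a
    cases h : H.c a
    · obtain ⟨e, rfl⟩ := H.exists_left a h
      left
      rw [← h1 e]
      exact congrArg Fin.val (hℓ e 0)
    · obtain ⟨e, rfl⟩ := H.exists_right a h
      right
      rw [← h2 e]
      exact congrArg Fin.val (hℓ e (Fin.last (k + 1)))
  have hℓw : ∀ e (i : Fin k), (ℓ (q e ⟨i + 2, by omega⟩) : ℕ) = i + 1 := by
    intro e i
    exact congrArg Fin.val (hℓ e ⟨i + 1, by omega⟩)
  set F : BG.opV k H → W := fun x => match x with
    | Sum.inl a => φ a
    | Sum.inr (Sum.inl y) => q y.1 ⟨y.2 + 2, by omega⟩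
    | Sum.inr (Sum.inr b) => if b then t else s with hFdef
  have hF1 : ∀ a, F (Sum.inl a) = φ a := fun a => rfl
  have hF2 : ∀ e i, F (Sum.inr (Sum.inl (e, i))) = q e ⟨i + 2, by omega⟩ := fun e i => rfl
  have hF3 : ∀ b, F (Sum.inr (Sum.inr b)) = if b then t else s := fun b => rfl
  have hpath : ∀ (e : H.E) (i : ℕ) (hi : i < k + 1 + 1), F (BG.pt k e i) = q e ⟨i + 1, by omega⟩ := by
    intro e i hi
    rcases Nat.eq_zero_or_pos i with rfl | h0
    · rw [BG.pt_zero, hF1, ← h1 e]
    · obtain ⟨j, rfl⟩ : ∃ j, i = j + 1 := ⟨i - 1, by omega⟩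
      rcases Nat.lt_or_ge j k with h | h
      · rw [BG.pt_inner k e j h, hF2]
      · have : j = k := by omega
        subst this
        rw [BG.pt_last, hF1, ← h2 e]
  have hwφ : ∀ a e (i : Fin k), φ a ≠ q e ⟨i + 2, by omega⟩ := by
    intro a e i h
    have e1 := hℓw e i
    rw [← h] at e1
    rcases hℓφ a with e2 | e2 <;> omega
  have hws : ∀ e (i : Fin k) (b : Bool), q e ⟨i + 2, by omega⟩ ≠ if b then t else s := by
    intro e i b h
    cases b
    · simp only [Bool.false_eq_true, if_false] at h
      rw [← h0 e] at h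
      have := congrArg Fin.val ((hq e).1 h)
      simp at this
    · simp only [if_true] at h
      rw [← h3 e] at h
      have := congrArg Fin.val ((hq e).1 h)
      simp at this
      omega
  have hφs : ∀ a (b : Bool), φ a ≠ if b then t else s := by
    intro a b
    cases b
    · exact (hsφa a).1.symm
    · exact (hsφa a).2.symm
  refine opG_contained_of_data k H G F ?_ ?_ ?_
  · rintro (a | ⟨⟨e, i⟩⟩ | b) (a' | ⟨⟨e', i'⟩⟩ | b') h
    · rw [hF1, hF1] at h; rw [hφ h]
    · rw [hF1, hF2] at h; exact absurd h (hwφ a e' i')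
    · rw [hF1, hF3] at h; exact absurd h (hφs a b')
    · rw [hF1, hF2] at h; exact absurd h.symm (hwφ a' e i)
    · rw [hF2, hF2] at h
      have hii : i = i' := by
        have e1 := hℓw e i
        have e2 := hℓw e' i'
        rw [h] at e1
        exact Fin.ext (by omega)
      subst hii
      by_cases hee : e = e'
      · rw [hee]
      · exact absurd h (hdis e e' hee i)
    · rw [hF2, hF3] at h; exact absurd h (hws e i b')
    · rw [hF1, hF3] at h; exact absurd h.symm (hφs a' b)
    · rw [hF2, hF3] at h; exact absurd h.symm (hws e' i' b)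
    · rw [hF3, hF3] at h
      cases b <;> cases b' <;> simp at h ⊢
      · exact hst h
      · exact hst h.symm
  · intro a
    rw [BG.apex, hF3, hF1]
    cases h : H.c a
    · obtain ⟨e, rfl⟩ := H.exists_left a h
      simp only [Bool.false_eq_true, if_false]
      rw [← h0 e, ← h1 e]
      exact (hq e).2 ⟨0, by omega⟩
    · obtain ⟨e, rfl⟩ := H.exists_right a h
      simp only [if_true]
      rw [← h2 e, ← h3 e]
      exact ((hq e).2 ⟨k + 2, by omega⟩).symm
  · intro e i hi
    rw [hpath e i (by omega), hpath e (i + 1) (by omega)]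
    exact (hq e).2 ⟨i + 1, by omega⟩

end Pool.Agent.Helper97.RE
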