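import Pool.Agent.Helper97.RE.Lib.Helper71_Count2

/-!
# Rational exponent conjecture: step E (piece U1)
-/

set_option autoImplicit false

namespace Pool.Agent.Helper97.RE
open Finset Classical

theorem sum_cnt {W : Type*} [Fintype W] [DecidableEq W] (G : SimpleGraph W) (L : ℕ) (R : ℕ → ℕ)
    (n : ℕ) : #{p ∈ PP G n | Clean G L R p} = ∑ st : W × W, cnt G L R n st.1 st.2 := by
  rw [Finset.card_eq_sum_card_fiberwise (f := fun p : Fin (n + 1) → W => (p 0, p (Fin.last n)))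
    (t := Finset.univ) (fun _ _ => Finset.mem_coe.2 (Finset.mem_univ _))]
  refine Finset.sum_congr rfl fun st _ => ?_
  unfold cnt
  congr 1
  ext p
  simp only [Finset.mem_filter, Prod.ext_iff, and_assoc]

theorem stepE (H : BG) (k K E : ℕ) (x : ℝ) (hx : 0 ≤ x) (hx1 : x ≤ 1)
    (hex : ∃ C : ℝ, ∀ n : ℕ, (SimpleGraph.extremalNumber n H.G : ℝ) ≤ C * (n : ℝ) ^ (1 + x))
    (R : ℕ → ℕ) :
    ∃ B : ℝ, ∀ (W : Type) [Fintype W] [DecidableEq W] (G : SimpleGraph W) [DecidableRel G.Adj]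
      (d : ℕ), 1 ≤ d → Nonempty W → (BG.opG k H).Free G → (∀ w, G.degree w ≤ K * d) →
      Fintype.card W * d ^ (k + 3) ≤ E * #{p ∈ PP G (k + 3) | Clean G (k + 1) R p} →
      (d : ℝ) < B * (Fintype.card W : ℝ) ^ (1 / ((k : ℝ) + 2 - x)) := by
  obtain ⟨C, hC⟩ := hex
  set A : ℕ := (k + 2) ^ (k + 2) * ((k + 1) * (Cb R (k + 1) * Cb R (k + 1))) with hA
  set D : ℝ := (E : ℝ) * A * (|C| * (2 * K) ^ (1 + x)) with hD
  set y : ℝ := (k : ℝ) + 2 - x with hy
  have hk0 : (0 : ℝ) ≤ k := Nat.cast_nonneg k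
  have hy0 : 0 < y := by rw [hy]; linarith
  have hD0 : 0 ≤ D := by
    rw [hD]; positivity
  refine ⟨D ^ (1 / y) + 1, ?_⟩
  intro W _ _ G _ d hd hne hfree hdeg hcl
  set n : ℕ := Fintype.card W with hn
  have hn0 : 0 < n := Fintype.card_pos
  have hn0' : (0 : ℝ) < n := by exact_mod_cast hn0
  have hd0' : (1 : ℝ) ≤ d := by exact_mod_cast hd
  have hd0 : (0 : ℝ) < d := by linarith
  -- choose s, t
  obtain ⟨st, hst⟩ : ∃ st : W × W, d ^ (k + 3) ≤ n * (E * cnt G (k + 1) R (k + 3) st.1 st.2) := by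
    by_contra hcon
    push Not at hcon
    have h1 : ∑ st : W × W, n * (E * cnt G (k + 1) R (k + 3) st.1 st.2) <
        ∑ st : W × W, d ^ (k + 3) :=
      Finset.sum_lt_sum_of_nonempty ⟨(Classical.arbitrary W, Classical.arbitrary W),
        Finset.mem_univ _⟩ fun st _ => hcon st
    rw [← Finset.mul_sum, ← Finset.mul_sum, ← sum_cnt, Finset.sum_const, Finset.card_univ,
      Fintype.card_prod, smul_eq_mul, ← hn] at h1
    have h2 := Nat.mul_le_mul_left n hcl
    rw [← mul_assoc] at h2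
    omega
  -- extremal numbers
  set N : ℕ := 2 * K * d with hN
  set X : ℕ := ⌊|C| * (N : ℝ) ^ (1 + x)⌋₊ with hX
  have hXle : (X : ℝ) ≤ |C| * (N : ℝ) ^ (1 + x) := Nat.floor_le (by positivity)
  have hXm : ∀ m ≤ N, SimpleGraph.extremalNumber m H.G ≤ X := by
    intro m hm
    refine Nat.le_floor ?_
    refine (hC m).trans ?_
    refine mul_le_mul (le_abs_self C) ?_ (by positivity) (abs_nonneg C)
    exact Real.rpow_le_rpow (by positivity) (by exact_mod_cast hm) (by linarith)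
  have hcount := count_st k H G R st.1 st.2 hfree N X (by
    intro S hS
    have h1 : S ⊆ G.neighborFinset st.1 ∪ G.neighborFinset st.2 := by
      intro v hv
      rw [Finset.mem_union, SimpleGraph.mem_neighborFinset, SimpleGraph.mem_neighborFinset]
      exact hS v hv
    refine (Finset.card_le_card h1).trans ((Finset.card_union_le _ _).trans ?_)
    rw [SimpleGraph.card_neighborFinset_eq_degree, SimpleGraph.card_neighborFinset_eq_degree]
    have h2 := hdeg st.1
    have h3 := hdeg st.2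
    rw [hN]
    nlinarith) hXm
  rw [card_cset] at hcount
  -- real arithmetic
  have h1 : (d : ℝ) ^ (k + 3) ≤ n * (E * ((A : ℝ) * (|C| * (N : ℝ) ^ (1 + x)))) := by
    have h2 : (d : ℝ) ^ (k + 3) ≤ n * (E * (cnt G (k + 1) R (k + 3) st.1 st.2 : ℝ)) := by
      exact_mod_cast hst
    have h3 : (cnt G (k + 1) R (k + 3) st.1 st.2 : ℝ) ≤ (A : ℝ) * X := by
      have : cnt G (k + 1) R (k + 3) st.1 st.2 ≤ A * X := by
        rw [hA, mul_assoc]; exact hcount
      exact_mod_cast this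
    refine h2.trans ?_
    refine mul_le_mul_of_nonneg_left ?_ hn0'.le
    refine mul_le_mul_of_nonneg_left ?_ (Nat.cast_nonneg E)
    exact h3.trans (mul_le_mul_of_nonneg_left hXle (Nat.cast_nonneg A))
  have h4 : (N : ℝ) ^ (1 + x) = (2 * K : ℝ) ^ (1 + x) * (d : ℝ) ^ (1 + x) := by
    rw [← Real.mul_rpow (by positivity) hd0.le, hN]
    push_cast
    ring_nf
  have h5 : (d : ℝ) ^ (k + 3) = (d : ℝ) ^ y * (d : ℝ) ^ (1 + x) := by
    rw [← Real.rpow_add hd0, ← Real.rpow_natCast]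
    congr 1
    rw [hy]
    push_cast
    ring
  have h6 : (d : ℝ) ^ y ≤ D * n := by
    have hp : 0 < (d : ℝ) ^ (1 + x) := Real.rpow_pos_of_pos hd0 _
    rw [h5, h4] at h1
    have h7 : (d : ℝ) ^ y * (d : ℝ) ^ (1 + x) ≤ (D * n) * (d : ℝ) ^ (1 + x) := by
      refine h1.trans (le_of_eq ?_)
      rw [hD]
      ring
    exact le_of_mul_le_mul_right h7 hp
  have h8 : (d : ℝ) ≤ D ^ (1 / y) * (n : ℝ) ^ (1 / y) := by
    have h9 : ((d : ℝ) ^ y) ^ (1 / y) ≤ (D * n) ^ (1 / y) :=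
      Real.rpow_le_rpow (by positivity) h6 (by positivity)
    rw [← Real.rpow_mul hd0.le, mul_one_div_cancel hy0.ne', Real.rpow_one,
      Real.mul_rpow hD0 hn0'.le] at h9
    exact h9
  have h10 : 0 < (n : ℝ) ^ (1 / y) := Real.rpow_pos_of_pos hn0' _
  rw [add_mul, one_mul]
  linarith

end Pool.Agent.Helper97.RE
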