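import Pool.Agent.Helper97.RE.Lib.Helper93_Img

/-!
# Parameters `c` over `F_p` for which the polynomials vanish at a configuration of points
of given shape
-/

set_option autoImplicit false
set_option linter.unusedSectionVars false

namespace Pool.Agent.Helper93.RE

open Finset MvPolynomial

section beta
variable {κ S : Type} [Fintype κ] [DecidableEq κ] [Fintype S] [DecidableEq S] {K : Type} [Field K]

theorem exists_beta (L : ℕ) (x : S → κ → K)
    (h : Submodule.span K (Set.range (mon L x)) = ⊤) :
    ∃ β : S → (κ → Fin (L + 1)), (Matrix.of (fun i j => mon L x (β j) i)).det ≠ 0 := by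
  classical
  obtain ⟨κ', a, ha, hsp, hli⟩ := exists_linearIndependent' K (mon L x)
  rw [h] at hsp
  let b : Module.Basis κ' K (S → K) := Module.Basis.mk hli (by rw [hsp])
  have hfin : Fintype κ' := FiniteDimensional.fintypeBasisIndex b
  have hcard : Fintype.card S = Fintype.card κ' := by
    rw [← Module.finrank_eq_card_basis b, Module.finrank_fintype_fun_eq_card]
  let e : S ≃ κ' := Fintype.equivOfCardEq hcard
  refine ⟨a ∘ e, ?_⟩
  have h1 : LinearIndependent K (Matrix.of (fun i j => mon L x ((a ∘ e) j) i)).col :=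
    hli.comp e e.injective
  rw [Matrix.linearIndependent_cols_iff_isUnit, Matrix.isUnit_iff_isUnit_det] at h1
  exact h1.ne_zero

end beta

section deg
variable {κ ν : Type} [Fintype ν] [DecidableEq ν] {K : Type} [Field K]

theorem totalDegree_det_le (δ₀ : ℕ) (A : Matrix ν ν (MvPolynomial κ K))
    (hA : ∀ i j, (A i j).totalDegree ≤ δ₀) : A.det.totalDegree ≤ Fintype.card ν * δ₀ := by
  rw [Matrix.det_apply]
  apply totalDegree_finsetSum_le
  intro σ _
  have h1 : (∏ i, A (σ i) i).totalDegree ≤ Fintype.card ν * δ₀ := by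
    refine (totalDegree_finsetProd _ _).trans ?_
    calc ∑ i, (A (σ i) i).totalDegree ≤ ∑ i : ν, δ₀ := Finset.sum_le_sum (fun i _ => hA _ _)
      _ = _ := by rw [Finset.sum_const, Finset.card_univ, smul_eq_mul]
  rcases Int.units_eq_one_or (Equiv.Perm.sign σ) with h | h
  · rw [h, one_smul]; exact h1
  · rw [h, Units.neg_smul, one_smul, totalDegree_neg]; exact h1

theorem totalDegree_adjugate_le (δ₀ : ℕ) (A : Matrix ν ν (MvPolynomial κ K))
    (hA : ∀ i j, (A i j).totalDegree ≤ δ₀) (i j : ν) :
    (A.adjugate i j).totalDegree ≤ Fintype.card ν * δ₀ := by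
  rw [Matrix.adjugate_apply]
  apply totalDegree_det_le
  intro i' j'
  rw [Matrix.updateRow_apply]
  split_ifs
  · rw [Pi.single_apply]
    split_ifs
    · rw [totalDegree_one]; omega
    · rw [totalDegree_zero]; omega
  · exact hA _ _

end deg

section temp
variable {κ ι ν : Type} [Fintype κ] [DecidableEq κ] [Fintype ι] [DecidableEq ι] [Fintype ν]
  [DecidableEq ν] {p : ℕ} [Fact p.Prime] {K : Type} [Field K] [Algebra (ZMod p) K]

/-- the points given by a template -/
def pt (P : ν → ι → κ ⊕ ZMod p) (x : κ → K) (i : ν) (u : ι) : K :=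
  Sum.elim x (algebraMap (ZMod p) K) (P i u)

/-- polynomial version -/
noncomputable def ptP (K : Type) [Field K] [Algebra (ZMod p) K] (P : ν → ι → κ ⊕ ZMod p)
    (i : ν) (u : ι) : MvPolynomial κ K :=
  Sum.elim X (fun a => C (algebraMap (ZMod p) K a)) (P i u)

theorem eval_ptP (P : ν → ι → κ ⊕ ZMod p) (x : κ → K) (i : ν) (u : ι) :
    eval x (ptP K P i u) = pt P x i u := by
  unfold ptP pt
  rcases P i u with a | a
  · simp
  · simp

theorem deg_ptP (P : ν → ι → κ ⊕ ZMod p) (i : ν) (u : ι) :
    (ptP K P i u).totalDegree ≤ 1 := by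
  unfold ptP
  rcases P i u with a | a
  · simp
  · simp

/-- monomials at the template points -/
noncomputable def monP (K : Type) [Field K] [Algebra (ZMod p) K] (D : ℕ)
    (P : ν → ι → κ ⊕ ZMod p) (α : ι → Fin (D + 1)) (i : ν) : MvPolynomial κ K :=
  ∏ u, (ptP K P i u) ^ (α u : ℕ)

theorem eval_monP (D : ℕ) (P : ν → ι → κ ⊕ ZMod p) (x : κ → K) (α : ι → Fin (D + 1)) (i : ν) :
    eval x (monP K D P α i) = mon D (pt P x) α i := by
  unfold monP mon
  rw [map_prod]
  apply Finset.prod_congr rfl
  intro u _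
  rw [map_pow, eval_ptP]

theorem deg_monP (D : ℕ) (P : ν → ι → κ ⊕ ZMod p) (α : ι → Fin (D + 1)) (i : ν) :
    (monP K D P α i).totalDegree ≤ Fintype.card ι * D := by
  unfold monP
  refine (totalDegree_finsetProd _ _).trans ?_
  calc ∑ u, (ptP K P i u ^ (α u : ℕ)).totalDegree ≤ ∑ u : ι, D := by
        apply Finset.sum_le_sum
        intro u _
        refine (totalDegree_pow _ _).trans ?_
        have h1 := deg_ptP (K := K) P i u
        have h2 : (α u : ℕ) ≤ D := Nat.lt_succ_iff.1 (α u).2
        calc (α u : ℕ) * (ptP K P i u).totalDegree ≤ D * 1 := Nat.mul_le_mul h2 h1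
          _ = D := mul_one _
    _ = _ := by rw [Finset.sum_const, Finset.card_univ, smul_eq_mul]

/-- the degree bound -/
def degB (D i n : ℕ) : ℕ := (n + 1) * (i * D)

/-- the matrix of chosen columns -/
noncomputable def matP (K : Type) [Field K] [Algebra (ZMod p) K] (D : ℕ)
    (P : ν → ι → κ ⊕ ZMod p) (β : ν → (ι → Fin (D + 1))) : Matrix ν ν (MvPolynomial κ K) :=
  Matrix.of (fun i j => monP K D P (β j) i)

theorem map_matP (D : ℕ) (P : ν → ι → κ ⊕ ZMod p) (β : ν → (ι → Fin (D + 1))) (x : κ → K) :
    (eval x).mapMatrix (matP K D P β) = Matrix.of (fun i j => mon D (pt P x) (β j) i) := by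
  ext i j
  rw [RingHom.mapMatrix_apply, Matrix.map_apply]
  exact eval_monP D P x (β j) i

/-- the numerators -/
noncomputable def gP (K : Type) [Field K] [Algebra (ZMod p) K] (D v : ℕ)
    (P : ν → ι → κ ⊕ ZMod p) (β : ν → (ι → Fin (D + 1)))
    (c'' : Fin v → {α : ι → Fin (D + 1) // α ∉ Set.range β} → ZMod p) (li : Fin v × ν) :
    MvPolynomial κ K :=
  ∑ i', (matP K D P β).adjugate li.2 i' *
    (- ∑ α : {α : ι → Fin (D + 1) // α ∉ Set.range β},
      C (algebraMap (ZMod p) K (c'' li.1 α)) * monP K D P α.1 i')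

theorem deg_gP (D v : ℕ) (P : ν → ι → κ ⊕ ZMod p) (β : ν → (ι → Fin (D + 1)))
    (c'' : Fin v → {α : ι → Fin (D + 1) // α ∉ Set.range β} → ZMod p) (li : Fin v × ν) :
    (gP K D v P β c'' li).totalDegree ≤ degB D (Fintype.card ι) (Fintype.card ν) := by
  unfold gP degB
  apply totalDegree_finsetSum_le
  intro i' _
  refine (totalDegree_mul _ _).trans ?_
  rw [add_mul, one_mul]
  apply Nat.add_le_add
  · exact totalDegree_adjugate_le _ _ (fun i j => deg_monP D P (β j) i) _ _
  · rw [totalDegree_neg]
    apply totalDegree_finsetSum_le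
    intro α _
    refine (totalDegree_mul _ _).trans ?_
    rw [totalDegree_C, zero_add]
    exact deg_monP D P α.1 i'

theorem sum_split {D : ℕ} (β : ν → (ι → Fin (D + 1))) (hβ : Function.Injective β)
    (f : (ι → Fin (D + 1)) → K) :
    ∑ α, f α = ∑ j, f (β j) + ∑ α : {α : ι → Fin (D + 1) // α ∉ Set.range β}, f α.1 := by
  classical
  have h1 : ∑ j, f (β j) = ∑ α ∈ Finset.univ.filter (fun α => α ∈ Set.range β), f α := by
    have : Finset.univ.filter (fun α => α ∈ Set.range β) = Finset.univ.image β := by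
      ext α
      simp
    rw [this, Finset.sum_image (fun a _ b _ h => hβ h)]
  have h2 : ∑ α : {α : ι → Fin (D + 1) // α ∉ Set.range β}, f α.1 =
      ∑ α ∈ Finset.univ.filter (fun α => α ∉ Set.range β), f α := by
    rw [Finset.sum_subtype (p := fun α => α ∉ Set.range β)]
    intro α
    simp
  rw [h1, h2, Finset.sum_filter_add_sum_filter_not]

theorem key_eq {D v : ℕ} (P : ν → ι → κ ⊕ ZMod p) (β : ν → (ι → Fin (D + 1)))
    (hβ : Function.Injective β) (c : Fin v → (ι → Fin (D + 1)) → ZMod p) (x : κ → K)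
    (hx : ∀ l i, ∑ α, algebraMap (ZMod p) K (c l α) * mon D (pt P x) α i = 0) (li : Fin v × ν) :
    eval x (matP K D P β).det * algebraMap (ZMod p) K (c li.1 (β li.2)) =
      eval x (gP K D v P β (fun l α => c l α.1) li) := by
  obtain ⟨l, i⟩ := li
  set A : Matrix ν ν K := Matrix.of (fun i j => mon D (pt P x) (β j) i) with hA
  have hdet : eval x (matP K D P β).det = A.det := by
    rw [RingHom.map_det, map_matP]
  have hadj : ∀ i', eval x ((matP K D P β).adjugate i i') = A.adjugate i i' := by
    intro i'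
    have h1 := RingHom.map_adjugate (eval x) (matP K D P β)
    rw [map_matP] at h1
    have h2 := congrFun (congrFun h1 i) i'
    rw [RingHom.mapMatrix_apply, Matrix.map_apply] at h2
    exact h2
  have hAw : ∀ i', (A.mulVec (fun j => algebraMap (ZMod p) K (c l (β j)))) i' =
      - ∑ α : {α : ι → Fin (D + 1) // α ∉ Set.range β},
      algebraMap (ZMod p) K (c l α.1) * mon D (pt P x) α.1 i' := by
    intro i'
    have h1 := hx l i'
    rw [sum_split β hβ] at h1
    have h2 : (A.mulVec (fun j => algebraMap (ZMod p) K (c l (β j)))) i' =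
        ∑ j, algebraMap (ZMod p) K (c l (β j)) * mon D (pt P x) (β j) i' := by
      rw [Matrix.mulVec, dotProduct]
      apply Finset.sum_congr rfl
      intro j _
      rw [mul_comm]
      rfl
    rw [h2]
    exact eq_neg_of_add_eq_zero_left h1
  have h3 : A.det * algebraMap (ZMod p) K (c l (β i)) =
      (A.adjugate.mulVec (A.mulVec (fun j => algebraMap (ZMod p) K (c l (β j))))) i := by
    rw [Matrix.mulVec_mulVec, Matrix.adjugate_mul, Matrix.smul_mulVec, Matrix.one_mulVec]
    rfl
  rw [hdet]
  change A.det * algebraMap (ZMod p) K (c l (β i)) = _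
  rw [h3, Matrix.mulVec, dotProduct]
  unfold gP
  rw [map_sum]
  apply Finset.sum_congr rfl
  intro i' _
  rw [map_mul, hadj, hAw, map_neg, map_sum]
  congr 1
  congr 1
  apply Finset.sum_congr rfl
  intro α _
  rw [map_mul, eval_C, eval_monP]

/-- the bound for a fixed choice of columns -/
theorem beta_count {D v : ℕ} (P : ν → ι → κ ⊕ ZMod p) (β : ν → (ι → Fin (D + 1)))
    (B : Finset (Fin v → (ι → Fin (D + 1)) → ZMod p))
    (hB : ∀ c ∈ B, ∃ x : κ → K, (Matrix.of (fun i j => mon D (pt P x) (β j) i)).det ≠ 0 ∧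
      ∀ l i, ∑ α, algebraMap (ZMod p) K (c l α) * mon D (pt P x) α i = 0) :
    B.card * p ^ (v * Fintype.card ν) ≤
      (v * Fintype.card ν * ((p - 1) * degB D (Fintype.card ι) (Fintype.card ν)) + 1) ^
        Fintype.card κ * Fintype.card (Fin v → (ι → Fin (D + 1)) → ZMod p) := by
  classical
  by_cases hβ : Function.Injective β
  swap
  · have : B = ∅ := by
      rw [Finset.eq_empty_iff_forall_notMem]
      intro c hc
      obtain ⟨x, hx, _⟩ := hB c hc
      apply hx
      obtain ⟨j, j', hjj, hne⟩ := Function.not_injective_iff.1 hβ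
      apply Matrix.det_zero_of_column_eq hne
      intro i
      rw [Matrix.of_apply, Matrix.of_apply, hjj]
    rw [this]
    simp
  set R := {α : ι → Fin (D + 1) // α ∉ Set.range β} with hR
  set bd := (v * Fintype.card ν * ((p - 1) * degB D (Fintype.card ι) (Fintype.card ν)) + 1) ^
        Fintype.card κ with hbd
  have hfib : ∀ c'' ∈ (Finset.univ : Finset (Fin v → R → ZMod p)),
      (B.filter (fun c => (fun l (α : R) => c l α.1) = c'')).card ≤ bd := by
    intro c'' _
    set F := B.filter (fun c => (fun l (α : R) => c l α.1) = c'') with hF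
    set S' : Finset (Fin v × ν → ZMod p) := F.image (fun c li => c li.1 (β li.2)) with hS'
    have hinj : Set.InjOn (fun (c : Fin v → (ι → Fin (D + 1)) → ZMod p) (li : Fin v × ν) =>
        c li.1 (β li.2)) (F : Set (Fin v → (ι → Fin (D + 1)) → ZMod p)) := by
      intro c hc c' hc' h
      rw [Finset.mem_coe, hF, Finset.mem_filter] at hc hc'
      funext l α
      by_cases hα : α ∈ Set.range β
      · obtain ⟨j, rfl⟩ := hα
        exact congrFun h (l, j)
      · have h1 := congrFun (congrFun (hc.2.trans hc'.2.symm) l) ⟨α, hα⟩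
        exact h1
    have hcard : S'.card = F.card := Finset.card_image_of_injOn hinj
    have himg := img_count (degB D (Fintype.card ι) (Fintype.card ν)) (matP K D P β).det
      (gP K D v P β c'') ?_ (fun i => deg_gP D v P β c'' i) S' ?_
    · rw [Fintype.card_prod, Fintype.card_fin] at himg
      rw [← hcard]
      exact himg
    · refine (totalDegree_det_le _ _ (fun i j => deg_monP D P (β j) i)).trans ?_
      unfold degB
      rw [add_mul]
      omega
    · intro c' hc'
      rw [hS'] at hc'
      obtain ⟨c, hc, rfl⟩ := Finset.mem_image.1 hc'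
      rw [hF, Finset.mem_filter] at hc
      obtain ⟨x, hx1, hx2⟩ := hB c hc.1
      refine ⟨x, ?_, ?_⟩
      · rw [RingHom.map_det, map_matP]
        exact hx1
      · intro li
        rw [← hc.2]
        exact key_eq P β hβ c x hx2 li
  have h1 := Finset.card_le_mul_card_image_of_maps_to (s := B)
    (f := fun c => (fun l (α : R) => c l α.1)) (t := Finset.univ)
    (fun _ _ => Finset.mem_univ _) bd hfib
  rw [Finset.card_univ] at h1
  have hRcard : Fintype.card R + Fintype.card ν = Fintype.card (ι → Fin (D + 1)) := by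
    have h2 : Fintype.card {α : ι → Fin (D + 1) // α ∈ Set.range β} = Fintype.card ν := by
      have := Set.card_range_of_injective hβ
      convert this
    have h3 := Fintype.card_subtype_compl (fun α : ι → Fin (D + 1) => α ∈ Set.range β)
    have h4 : Fintype.card {α : ι → Fin (D + 1) // α ∈ Set.range β} ≤
        Fintype.card (ι → Fin (D + 1)) := Fintype.card_subtype_le _
    rw [h2] at h3 h4
    have h5 : Fintype.card R = Fintype.card (ι → Fin (D + 1)) - Fintype.card ν := by
      rw [← h3]
    omega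
  calc B.card * p ^ (v * Fintype.card ν) ≤
        (bd * Fintype.card (Fin v → R → ZMod p)) * p ^ (v * Fintype.card ν) :=
        Nat.mul_le_mul_right _ h1
    _ = bd * (Fintype.card (Fin v → R → ZMod p) * p ^ (v * Fintype.card ν)) := by ring
    _ = bd * Fintype.card (Fin v → (ι → Fin (D + 1)) → ZMod p) := by
        congr 1
        have e1 : Fintype.card (Fin v → R → ZMod p) = p ^ (v * Fintype.card R) := by
          rw [Fintype.card_fun, Fintype.card_fun, ZMod.card, Fintype.card_fin, ← pow_mul,
            mul_comm]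
        have e2 : Fintype.card (Fin v → (ι → Fin (D + 1)) → ZMod p) =
            p ^ (v * Fintype.card (ι → Fin (D + 1))) := by
          rw [Fintype.card_fun, Fintype.card_fun (α := ι → Fin (D + 1)), ZMod.card,
            Fintype.card_fin, ← pow_mul, mul_comm]
        rw [e1, e2, ← hRcard, ← pow_add, mul_add]

/-- the constant -/
def cT (D v i n k : ℕ) : ℕ := ((D + 1) ^ i) ^ n * (v * n * degB D i n + 1) ^ k

theorem temp_count {D v : ℕ} (hn : Fintype.card ν ≤ D + 1) (P : ν → ι → κ ⊕ ZMod p)
    (B : Finset (Fin v → (ι → Fin (D + 1)) → ZMod p))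
    (hB : ∀ c ∈ B, ∃ x : κ → K, Function.Injective (pt P x) ∧
      ∀ l i, ∑ α, algebraMap (ZMod p) K (c l α) * mon D (pt P x) α i = 0) :
    B.card * p ^ (v * Fintype.card ν) ≤
      cT D v (Fintype.card ι) (Fintype.card ν) (Fintype.card κ) * p ^ Fintype.card κ *
        Fintype.card (Fin v → (ι → Fin (D + 1)) → ZMod p) := by
  classical
  have hp : p.Prime := Fact.out
  set Bβ : (ν → (ι → Fin (D + 1))) → Finset (Fin v → (ι → Fin (D + 1)) → ZMod p) := fun β =>
    B.filter (fun c => ∃ x : κ → K, (Matrix.of (fun i j => mon D (pt P x) (β j) i)).det ≠ 0 ∧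
      ∀ l i, ∑ α, algebraMap (ZMod p) K (c l α) * mon D (pt P x) α i = 0) with hBβ
  have hsub : B ⊆ Finset.univ.biUnion Bβ := by
    intro c hc
    obtain ⟨x, hx1, hx2⟩ := hB c hc
    obtain ⟨β, hβ⟩ := exists_beta D (pt P x) (span_of_injective D (pt P x) hx1 hn)
    rw [Finset.mem_biUnion]
    refine ⟨β, Finset.mem_univ _, ?_⟩
    rw [hBβ, Finset.mem_filter]
    exact ⟨hc, x, hβ, hx2⟩
  set bd := (v * Fintype.card ν * ((p - 1) * degB D (Fintype.card ι) (Fintype.card ν)) + 1) ^
        Fintype.card κ with hbd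
  have h1 : ∀ β, (Bβ β).card * p ^ (v * Fintype.card ν) ≤
      bd * Fintype.card (Fin v → (ι → Fin (D + 1)) → ZMod p) := by
    intro β
    apply beta_count (K := K) P β (Bβ β)
    intro c hc
    rw [hBβ, Finset.mem_filter] at hc
    exact hc.2
  have hbd' : bd ≤ (v * Fintype.card ν * degB D (Fintype.card ι) (Fintype.card ν) + 1) ^
      Fintype.card κ * p ^ Fintype.card κ := by
    rw [hbd, ← mul_pow]
    apply Nat.pow_le_pow_left
    have hp1 : p - 1 ≤ p := Nat.sub_le _ _
    have hp2 : 1 ≤ p := hp.one_lt.le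
    calc v * Fintype.card ν * ((p - 1) * degB D (Fintype.card ι) (Fintype.card ν)) + 1 ≤
        v * Fintype.card ν * (p * degB D (Fintype.card ι) (Fintype.card ν)) + p := by
          apply Nat.add_le_add _ hp2
          exact Nat.mul_le_mul_left _ (Nat.mul_le_mul_right _ hp1)
      _ = (v * Fintype.card ν * degB D (Fintype.card ι) (Fintype.card ν) + 1) * p := by ring
  calc B.card * p ^ (v * Fintype.card ν) ≤ (∑ β, (Bβ β).card) * p ^ (v * Fintype.card ν) := by
        apply Nat.mul_le_mul_right
        exact (Finset.card_le_card hsub).trans Finset.card_biUnion_le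
    _ = ∑ β, (Bβ β).card * p ^ (v * Fintype.card ν) := Finset.sum_mul _ _ _
    _ ≤ ∑ β : ν → (ι → Fin (D + 1)), bd * Fintype.card (Fin v → (ι → Fin (D + 1)) → ZMod p) :=
        Finset.sum_le_sum (fun β _ => h1 β)
    _ = ((D + 1) ^ Fintype.card ι) ^ Fintype.card ν *
        (bd * Fintype.card (Fin v → (ι → Fin (D + 1)) → ZMod p)) := by
        rw [Finset.sum_const, Finset.card_univ, smul_eq_mul, Fintype.card_fun, Fintype.card_fun,
          Fintype.card_fin]
    _ ≤ ((D + 1) ^ Fintype.card ι) ^ Fintype.card ν *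
        (((v * Fintype.card ν * degB D (Fintype.card ι) (Fintype.card ν) + 1) ^
      Fintype.card κ * p ^ Fintype.card κ) *
          Fintype.card (Fin v → (ι → Fin (D + 1)) → ZMod p)) := by
        apply Nat.mul_le_mul_left
        exact Nat.mul_le_mul_right _ hbd'
    _ = _ := by
        unfold cT
        ring

end temp

end Pool.Agent.Helper93.RE
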